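import Mathlib

/-!
Basic facts on the closure of the image of the divisor function `σ_{-r}`.
-/

namespace Pool.Agent.CrNM

open Finset

/-- The divisor function `σ_{-r}(n) = ∑_{d ∣ n} d^{-r}`. -/
noncomputable def sig (r : ℝ) (n : ℕ) : ℝ := ∑ d ∈ n.divisors, (d : ℝ) ^ (-r)

/-- The local factor variable `p^{-r}`. -/
noncomputable def xx (r : ℝ) (p : ℕ) : ℝ := (p : ℝ) ^ (-r)

/-- `1 + x + ... + x^e` with `x = p^{-r}`. -/
noncomputable def ss (r : ℝ) (p e : ℕ) : ℝ := ∑ i ∈ range (e + 1), (xx r p) ^ i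

/-- `1 / (1 - x)` with `x = p^{-r}`. -/
noncomputable def si (r : ℝ) (p : ℕ) : ℝ := (1 - xx r p)⁻¹

variable {r : ℝ}

lemma xx_pos {p : ℕ} (hp : 0 < p) : 0 < xx r p := Real.rpow_pos_of_pos (by exact_mod_cast hp) _

lemma xx_mul (a b : ℕ) : xx r (a * b) = xx r a * xx r b := by
  unfold xx
  push_cast
  exact Real.mul_rpow (by positivity) (by positivity)

lemma xx_one : xx r 1 = 1 := by simp [xx]

lemma xx_pow (a k : ℕ) : xx r (a ^ k) = xx r a ^ k := by
  induction k with
  | zero => simp [xx_one]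
  | succ k ih => rw [pow_succ, xx_mul, ih, pow_succ]

lemma xx_lt_one (hr : 0 < r) {p : ℕ} (hp : 2 ≤ p) : xx r p < 1 := by
  unfold xx
  apply Real.rpow_lt_one_of_one_lt_of_neg
  · exact_mod_cast (by omega : 1 < p)
  · linarith

lemma xx_anti (hr : 0 ≤ r) {a b : ℕ} (ha : 0 < a) (hab : a ≤ b) : xx r b ≤ xx r a := by
  unfold xx
  apply Real.rpow_le_rpow_of_nonpos
  · exact_mod_cast ha
  · exact_mod_cast hab
  · linarith

lemma sig_eq (n : ℕ) : sig r n = ∑ d ∈ n.divisors, xx r d := rfl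

lemma sig_one : sig r 1 = 1 := by simp [sig]

lemma sig_mul {m n : ℕ} (h : m.Coprime n) : sig r (m * n) = sig r m * sig r n := by
  rw [sig_eq, sig_eq, sig_eq, Nat.divisors_mul, Finset.mul_def, Finset.sum_image h.mul_injOn_divisors,
    Finset.sum_product, Finset.sum_mul_sum]
  refine sum_congr rfl fun a _ => sum_congr rfl fun b _ => xx_mul a b

lemma sig_prime_pow {p : ℕ} (hp : p.Prime) (e : ℕ) : sig r (p ^ e) = ss r p e := by
  rw [sig_eq, ss, Nat.sum_divisors_prime_pow hp]
  exact sum_congr rfl fun i _ => xx_pow p i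

lemma ss_zero (p : ℕ) : ss r p 0 = 1 := by simp [ss]

lemma ss_succ (p e : ℕ) : ss r p (e + 1) = ss r p e + xx r p ^ (e + 1) := by
  unfold ss
  rw [sum_range_succ]

lemma ss_succ' (p e : ℕ) : ss r p (e + 1) = 1 + xx r p * ss r p e := by
  unfold ss
  rw [sum_range_succ', mul_sum]
  simp only [pow_zero, pow_succ]
  rw [add_comm]
  congr 1
  exact sum_congr rfl fun i _ => by ring

lemma ss_pos {p : ℕ} (hp : 0 < p) (e : ℕ) : 0 < ss r p e := by
  unfold ss
  have := xx_pos (r := r) hp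
  exact sum_pos (fun i _ => by positivity) (by simp)

lemma ss_mono {p : ℕ} (hp : 0 < p) : Monotone (ss r p) := by
  apply monotone_nat_of_le_succ
  intro e
  rw [ss_succ]
  have := xx_pos (r := r) hp
  have : 0 < xx r p ^ (e + 1) := by positivity
  linarith

lemma one_le_ss {p : ℕ} (hp : 0 < p) (e : ℕ) : 1 ≤ ss r p e := by
  have := ss_mono (r := r) hp (Nat.zero_le e)
  rwa [ss_zero] at this

lemma ss_eq (hr : 0 < r) {p : ℕ} (hp : 2 ≤ p) (e : ℕ) :
    ss r p e = (1 - xx r p ^ (e + 1)) * si r p := by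
  have h1 := xx_lt_one hr hp
  unfold ss si
  rw [geom_sum_eq (by linarith), ← neg_div_neg_eq, div_eq_mul_inv]
  congr 1
  · ring
  · congr 1; ring

lemma si_pos (hr : 0 < r) {p : ℕ} (hp : 2 ≤ p) : 0 < si r p := by
  have h1 := xx_lt_one hr hp
  unfold si
  have : 0 < 1 - xx r p := by linarith
  positivity

lemma ss_lt_si (hr : 0 < r) {p : ℕ} (hp : 2 ≤ p) (e : ℕ) : ss r p e < si r p := by
  rw [ss_eq hr hp]
  have h1 := si_pos hr hp
  have h2 := xx_pos (r := r) (p := p) (by omega)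
  have : 0 < xx r p ^ (e + 1) := by positivity
  nlinarith

lemma si_eq (hr : 0 < r) {p : ℕ} (hp : 2 ≤ p) : si r p = 1 + xx r p * si r p := by
  have h1 := xx_lt_one hr hp
  unfold si
  have : (1 - xx r p) ≠ 0 := by linarith
  field_simp
  ring

lemma tendsto_ss (hr : 0 < r) {p : ℕ} (hp : 2 ≤ p) :
    Filter.Tendsto (ss r p) Filter.atTop (nhds (si r p)) := by
  have h1 := xx_lt_one hr hp
  have h2 := xx_pos (r := r) (p := p) (by omega)
  have : Filter.Tendsto (fun e : ℕ => (1 - xx r p ^ (e + 1)) * si r p) Filter.atTop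
      (nhds ((1 - 0) * si r p)) := by
    apply Filter.Tendsto.mul_const
    apply Filter.Tendsto.const_sub
    exact (tendsto_pow_atTop_nhds_zero_of_lt_one h2.le h1).comp (Filter.tendsto_add_atTop_nat 1)
  simp only [sub_zero, one_mul] at this
  refine this.congr fun e => (ss_eq hr hp e).symm

/-- ratio `s(e+1)/s(e)` is nonincreasing -/
lemma ss_ratio {p : ℕ} (hp : 0 < p) {a b : ℝ} {k : ℕ} (ha : 0 ≤ a)
    (h : ss r p (k + 1) * a ≤ ss r p k * b) {e : ℕ} (he : k ≤ e) :
    ss r p (e + 1) * a ≤ ss r p e * b := by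
  have hx := xx_pos (r := r) hp
  -- s(e+1) s(k) ≤ s(e) s(k+1)
  have key : ss r p (e + 1) * ss r p k ≤ ss r p e * ss r p (k + 1) := by
    have h1 : ∀ d : ℕ, ss r p (k + d + 1) * ss r p k ≤ ss r p (k + d) * ss r p (k + 1) := by
      intro d
      -- s(e+1) s(k) - s(e) s(k+1) = x^{e+1} s(k) - x^{k+1} s(e) 
      have e1 : xx r p ^ (k + d + 1) * ss r p k ≤ xx r p ^ (k + 1) * ss r p (k + d) := by
        have : xx r p ^ (k + d + 1) * ss r p k = xx r p ^ (k + 1) * (xx r p ^ d * ss r p k) := by ring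
        rw [this]
        apply mul_le_mul_of_nonneg_left _ (by positivity)
        -- x^d s(k) ≤ s(k+d)
        unfold ss
        rw [mul_sum]
        have h3 : range (k + d + 1) = range (d + (k + 1)) := by congr 1; ring
        have : ∑ i ∈ range (k + 1), xx r p ^ d * xx r p ^ i = ∑ i ∈ range (k + 1), xx r p ^ (d + i) :=
          sum_congr rfl fun i _ => by rw [pow_add]
        rw [this, h3, sum_range_add (fun i => xx r p ^ i) d (k + 1)]
        have : 0 ≤ ∑ i ∈ range d, xx r p ^ i := sum_nonneg fun i _ => by positivity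
        linarith
      rw [ss_succ, ss_succ]
      nlinarith
    obtain ⟨d, rfl⟩ := Nat.exists_eq_add_of_le he
    exact h1 d
  have hk := ss_pos (r := r) hp k
  have he' := ss_pos (r := r) hp e
  have : ss r p k * (ss r p (e + 1) * a) ≤ ss r p k * (ss r p e * b) := by
    calc ss r p k * (ss r p (e + 1) * a) = (ss r p (e + 1) * ss r p k) * a := by ring
      _ ≤ (ss r p e * ss r p (k + 1)) * a := by gcongr
      _ = ss r p e * (ss r p (k + 1) * a) := by ring
      _ ≤ ss r p e * (ss r p k * b) := by gcongr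
      _ = _ := by ring
  exact le_of_mul_le_mul_left this hk

/-- covering an interval by translates -/
lemma split (hr : 0 < r) {p : ℕ} (hp : 2 ≤ p) {k : ℕ} {a b x : ℝ} (ha : 0 < a)
    (h : ss r p (k + 1) * a ≤ ss r p k * b) (h1 : ss r p k * a ≤ x) (h2 : x ≤ si r p * b) :
    ∃ t, (t = si r p ∨ ∃ e, k ≤ e ∧ t = ss r p e) ∧ t * a ≤ x ∧ x ≤ t * b := by
  by_cases hx : si r p * a ≤ x
  · exact ⟨_, Or.inl rfl, hx, h2⟩
  push Not at hx
  -- some e with s(e) a > x
  have h3 : ∃ e, x < ss r p e * a := by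
    have := (tendsto_ss hr hp).mul_const a
    exact (this.eventually (eventually_gt_nhds hx)).exists
  classical
  let e0 := Nat.find h3
  have he0 : x < ss r p e0 * a := Nat.find_spec h3
  have hk : k < e0 := by
    by_contra hcon
    push Not at hcon
    have := ss_mono (r := r) (p := p) (by omega) hcon
    nlinarith
  obtain ⟨e, he⟩ : ∃ e, e0 = e + 1 := ⟨e0 - 1, by omega⟩
  have h4 : ¬ x < ss r p e * a := Nat.find_min h3 (by omega : e < e0)
  push Not at h4
  refine ⟨ss r p e, Or.inr ⟨e, by omega, rfl⟩, h4, ?_⟩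
  rw [he] at he0
  have := ss_ratio (r := r) (p := p) (by omega) ha.le h (by omega : k ≤ e)
  linarith

end Pool.Agent.CrNM
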