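import Mathlib

/-!
Counting connected components of a finite union of intervals by a scan over a list.
-/

namespace Pool.Agent.CrNM

open Finset Filter Topology

section comps

variable {K : Set ℝ}

lemma comp_eq {a b : ℝ} (ha : a ∈ K) (hb : b ∈ K) (hab : a ≤ b) (h : Set.Icc a b ⊆ K) :
    (ConnectedComponents.mk (⟨a, ha⟩ : K)) = ConnectedComponents.mk (⟨b, hb⟩ : K) := by
  rw [ConnectedComponents.coe_eq_coe']
  have h1 : IsPreconnected ((↑) ⁻¹' Set.Icc a b : Set K) := by
    rw [← Topology.IsInducing.subtypeVal.isPreconnected_image]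
    rw [Subtype.image_preimage_coe, Set.inter_eq_right.2 h]
    exact isPreconnected_Icc
  have h2 : (⟨b, hb⟩ : K) ∈ ((↑) ⁻¹' Set.Icc a b : Set K) := ⟨hab, le_rfl⟩
  have h3 : (⟨a, ha⟩ : K) ∈ ((↑) ⁻¹' Set.Icc a b : Set K) := ⟨le_rfl, hab⟩
  exact h1.subset_connectedComponent h2 h3

lemma mem_of_comp_eq {a b c : ℝ} (ha : a ∈ K) (hb : b ∈ K)
    (h : (ConnectedComponents.mk (⟨a, ha⟩ : K)) = ConnectedComponents.mk (⟨b, hb⟩ : K))
    (h1 : a ≤ c) (h2 : c ≤ b) : c ∈ K := by
  rw [ConnectedComponents.coe_eq_coe'] at h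
  have h3 : IsPreconnected (connectedComponent (⟨b, hb⟩ : K)) := isPreconnected_connectedComponent
  have h4 := h3.image Subtype.val continuous_subtype_val.continuousOn
  have h5 : a ∈ Subtype.val '' connectedComponent (⟨b, hb⟩ : K) := ⟨⟨a, ha⟩, h, rfl⟩
  have h6 : b ∈ Subtype.val '' connectedComponent (⟨b, hb⟩ : K) := ⟨⟨b, hb⟩, mem_connectedComponent, rfl⟩
  have h7 := h4.Icc_subset h5 h6 ⟨h1, h2⟩
  obtain ⟨z, _, hz⟩ := h7
  rw [← hz]
  exact z.2

end comps

/-- Scan giving an upper bound for the number of components. -/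
def scanUp (Fl Fh Gl : ℕ → ℕ) : List ℕ → ℕ → ℕ → ℕ
  | [], _, _ => 0
  | c :: L, cF, cG =>
    bif (Nat.ble cF (Fl c) && Nat.ble (Fh c) cG) then
      (bif Nat.ble (Gl c) cG then scanUp Fl Fh Gl L cF cG else scanUp Fl Fh Gl L (Fh c) (Gl c))
    else 1 + scanUp Fl Fh Gl L (Fh c) (Gl c)

/-- Scan giving a lower bound for the number of components. -/
def scanDn (Fl Gh : ℕ → ℕ) : List ℕ → ℕ → ℕ → Option ℕ
  | [], _, _ => some 0
  | c :: L, A, B =>
    bif Nat.blt B (Fl c) then (scanDn Fl Gh L (Fl c) (Gh c)).map Nat.succ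
    else bif Nat.ble A (Fl c) then
      (bif Nat.ble (Gh c) B then scanDn Fl Gh L A B else scanDn Fl Gh L A (Gh c))
    else none

/-- Data for a scan. -/
structure Data (K : Set ℝ) (N : ℕ) (f g : ℕ → ℝ) (M : ℝ) (Fl Fh Gl Gh : ℕ → ℕ) : Prop where
  hK : ∀ x, x ∈ K ↔ ∃ c < N, f c ≤ x ∧ x ≤ g c
  hfg : ∀ c, f c ≤ g c
  hM : 0 < M
  hFl : ∀ c, (Fl c : ℝ) ≤ M * f c
  hFh : ∀ c, M * f c ≤ Fh c
  hGl : ∀ c, (Gl c : ℝ) ≤ M * g c
  hGh : ∀ c, M * g c ≤ Gh c

section

variable {K : Set ℝ} {N : ℕ} {f g : ℕ → ℝ} {M : ℝ} {Fl Fh Gl Gh : ℕ → ℕ}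

/-- `y ∈ K` and its component belongs to `W`. -/
def InC (K : Set ℝ) (W : Set (ConnectedComponents K)) (y : ℝ) : Prop :=
  ∃ h : y ∈ K, ConnectedComponents.mk (⟨y, h⟩ : K) ∈ W

lemma fmem (D : Data K N f g M Fl Fh Gl Gh) {c : ℕ} (hc : c < N) : f c ∈ K :=
  (D.hK _).2 ⟨c, hc, le_rfl, D.hfg c⟩

lemma Icc_sub (D : Data K N f g M Fl Fh Gl Gh) {c : ℕ} (hc : c < N) :
    Set.Icc (f c) (g c) ⊆ K := fun x hx => (D.hK x).2 ⟨c, hc, hx.1, hx.2⟩

lemma scanUp_spec (D : Data K N f g M Fl Fh Gl Gh) (L : List ℕ) :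
    (∀ c ∈ L, c < N) → ∀ (V : Set (ConnectedComponents K)) (cF cG : ℕ),
    (∃ c0 < N, M * f c0 ≤ cF ∧ (cG : ℝ) ≤ M * g c0 ∧ InC K V (f c0)) →
    ∃ U : Finset (ConnectedComponents K), U.card ≤ scanUp Fl Fh Gl L cF cG ∧
      ∀ c ∈ L, InC K (V ∪ U) (f c) := by
  classical
  induction L with
  | nil =>
    intro _ V cF cG _
    exact ⟨∅, by simp, by simp⟩
  | cons c L ih =>
    intro hL V cF cG hc0
    have hcN : c < N := hL c List.mem_cons_self
    have hL' : ∀ c ∈ L, c < N := fun c hc => hL c (List.mem_cons_of_mem _ hc)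
    obtain ⟨c0, hc0N, h1, h2, h3⟩ := hc0
    by_cases hcov : (Nat.ble cF (Fl c) && Nat.ble (Fh c) cG) = true
    · have hcov' := hcov
      rw [Bool.and_eq_true] at hcov'
      have h4 : cF ≤ Fl c := Nat.le_of_ble_eq_true hcov'.1
      have h5 : Fh c ≤ cG := Nat.le_of_ble_eq_true hcov'.2
      have h4' : (cF : ℝ) ≤ Fl c := by exact_mod_cast h4
      have h5' : (Fh c : ℝ) ≤ cG := by exact_mod_cast h5
      have h6 : f c0 ≤ f c := by
        have := D.hFl c
        have := D.hM
        have : M * f c0 ≤ M * f c := by linarith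
        exact le_of_mul_le_mul_left this D.hM
      have h7 : f c ≤ g c0 := by
        have := D.hFh c
        have : M * f c ≤ M * g c0 := by linarith
        exact le_of_mul_le_mul_left this D.hM
      have hcV : InC K V (f c) := by
        obtain ⟨hm, hV⟩ := h3
        refine ⟨fmem D hcN, ?_⟩
        rw [← comp_eq hm (fmem D hcN) h6
          ((Set.Icc_subset_Icc_right h7).trans (Icc_sub D hc0N))]
        exact hV
      by_cases hg : Nat.ble (Gl c) cG = true
      · obtain ⟨U, hU1, hU2⟩ := ih hL' V cF cG ⟨c0, hc0N, h1, h2, h3⟩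
        refine ⟨U, ?_, ?_⟩
        · simp only [scanUp, hcov, hg, cond_true]
          exact hU1
        · intro c' hc'
          rcases List.mem_cons.1 hc' with rfl | h
          · obtain ⟨hm, hV⟩ := hcV
            exact ⟨hm, Or.inl hV⟩
          · exact hU2 c' h
      · obtain ⟨U, hU1, hU2⟩ := ih hL' V (Fh c) (Gl c) ⟨c, hcN, D.hFh c, D.hGl c, hcV⟩
        refine ⟨U, ?_, ?_⟩
        · simp only [scanUp, hcov, hg, cond_true, cond_false]
          exact hU1
        · intro c' hc'
          rcases List.mem_cons.1 hc' with rfl | h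
          · obtain ⟨hm, hV⟩ := hcV
            exact ⟨hm, Or.inl hV⟩
          · exact hU2 c' h
    · have hcov' : (Nat.ble cF (Fl c) && Nat.ble (Fh c) cG) = false := Bool.eq_false_of_not_eq_true hcov
      set C0 : ConnectedComponents K := ConnectedComponents.mk (⟨f c, fmem D hcN⟩ : K) with hC0
      obtain ⟨U, hU1, hU2⟩ := ih hL' (insert C0 V) (Fh c) (Gl c)
        ⟨c, hcN, D.hFh c, D.hGl c, fmem D hcN, Set.mem_insert _ _⟩
      refine ⟨insert C0 U, ?_, ?_⟩
      · simp only [scanUp, hcov', cond_false]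
        have := Finset.card_insert_le C0 U
        omega
      · intro c' hc'
        rcases List.mem_cons.1 hc' with rfl | h
        · exact ⟨fmem D hcN, Or.inr (by simp [hC0])⟩
        · obtain ⟨hm, hV⟩ := hU2 c' h
          refine ⟨hm, ?_⟩
          rcases hV with hV | hV
          · rcases hV with hV | hV
            · exact Or.inr (by simp [hV])
            · exact Or.inl hV
          · exact Or.inr (by simp only [coe_insert, Set.mem_insert_iff]; exact Or.inr hV)

/-- upper bound for the number of components -/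
lemma card_le_of_scanUp (D : Data K N f g M Fl Fh Gl Gh) {L : List ℕ} {c1 : ℕ} (hc1 : c1 < N)
    (hL : ∀ c ∈ L, c < N) (hL2 : ∀ c < N, c = c1 ∨ c ∈ L) :
    Finite (ConnectedComponents K) ∧
    Nat.card (ConnectedComponents K) ≤ 1 + scanUp Fl Fh Gl L (Fh c1) (Gl c1) := by
  classical
  obtain ⟨U, hU1, hU2⟩ := scanUp_spec D L hL {ConnectedComponents.mk (⟨f c1, fmem D hc1⟩ : K)}
    (Fh c1) (Gl c1) ⟨c1, hc1, D.hFh c1, D.hGl c1, fmem D hc1, rfl⟩
  set U' : Finset (ConnectedComponents K) :=
    insert (ConnectedComponents.mk (⟨f c1, fmem D hc1⟩ : K)) U with hU'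
  have hall : ∀ z : ConnectedComponents K, z ∈ U' := by
    intro z
    obtain ⟨⟨x, hx⟩, rfl⟩ := ConnectedComponents.surjective_coe z
    obtain ⟨c, hc, h1, h2⟩ := (D.hK x).1 hx
    have h3 := comp_eq (fmem D hc) hx h1 ((Set.Icc_subset_Icc_right h2).trans (Icc_sub D hc))
    show ConnectedComponents.mk (⟨x, hx⟩ : K) ∈ U'
    rw [← h3]
    rcases hL2 c hc with rfl | hcL
    · simp [hU']
    · obtain ⟨_, hV⟩ := hU2 c hcL
      rcases hV with hV | hV
      · rw [Set.mem_singleton_iff.1 hV]; simp [hU']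
      · rw [hU', Finset.mem_insert]; exact Or.inr hV
  have hfin : Finite (ConnectedComponents K) := by
    have : (Set.univ : Set (ConnectedComponents K)) ⊆ U' := fun z _ => hall z
    exact Set.finite_univ_iff.1 (U'.finite_toSet.subset this)
  refine ⟨hfin, ?_⟩
  have h1 : Nat.card (ConnectedComponents K) ≤ U'.card := by
    have := Fintype.ofFinite (ConnectedComponents K)
    rw [Nat.card_eq_fintype_card]
    exact Finset.card_le_card (s := Finset.univ) (fun z _ => hall z)
  have h2 : U'.card ≤ U.card + 1 := Finset.card_insert_le _ U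
  omega

/-- separated points -/
def Sep (K : Set ℝ) : ℕ → ℝ → Prop
  | 0, x => x ∈ K
  | k + 1, x => x ∈ K ∧ ∃ z y, x < z ∧ z < y ∧ z ∉ K ∧ Sep K k y

lemma Sep.mem {k : ℕ} {x : ℝ} (h : Sep K k x) : x ∈ K := by
  cases k with
  | zero => exact h
  | succ k => exact h.1

lemma sep_card : ∀ (k : ℕ) (x : ℝ), Sep K k x → ∃ U : Finset (ConnectedComponents K),
    U.card = k + 1 ∧ ∀ u ∈ U, ∃ y, ∃ h : y ∈ K, x ≤ y ∧ u = ConnectedComponents.mk (⟨y, h⟩ : K) := by
  classical
  intro k
  induction k with
  | zero =>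
    intro x hx
    refine ⟨{ConnectedComponents.mk (⟨x, hx⟩ : K)}, by simp, ?_⟩
    intro u hu
    exact ⟨x, hx, le_rfl, Finset.mem_singleton.1 hu⟩
  | succ k ih =>
    intro x hx
    obtain ⟨hxK, z, y, hxz, hzy, hz, hy⟩ := hx
    obtain ⟨U, hU1, hU2⟩ := ih y hy
    refine ⟨insert (ConnectedComponents.mk (⟨x, hxK⟩ : K)) U, ?_, ?_⟩
    · rw [Finset.card_insert_of_notMem, hU1]
      intro hmem
      obtain ⟨w, hw, hyw, h⟩ := hU2 _ hmem
      exact hz (mem_of_comp_eq hxK hw h hxz.le (by linarith))
    · intro u hu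
      rcases Finset.mem_insert.1 hu with rfl | h
      · exact ⟨x, hxK, le_rfl, rfl⟩
      · obtain ⟨w, hw, hyw, h⟩ := hU2 u h
        exact ⟨w, hw, by linarith, h⟩

lemma Fl_le_Gh (D : Data K N f g M Fl Fh Gl Gh) (c : ℕ) : Fl c ≤ Gh c := by
  have h1 := D.hFl c
  have h2 := D.hGh c
  have h3 := D.hfg c
  have h4 := D.hM
  have : (Fl c : ℝ) ≤ Gh c := by nlinarith
  exact_mod_cast this

lemma scanDn_lower (D : Data K N f g M Fl Fh Gl Gh) (L : List ℕ) : ∀ (A B k : ℕ), A ≤ B →
    scanDn Fl Gh L A B = some k → ∀ c ∈ L, A ≤ Fl c := by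
  induction L with
  | nil => intro A B k _ _ c hc; exact absurd hc (by simp)
  | cons c L ih =>
    intro A B k hAB h c' hc'
    by_cases h1 : Nat.blt B (Fl c) = true
    · simp only [scanDn, h1, cond_true] at h
      have h1' : B < Fl c := by simpa [Nat.blt_eq] using h1
      cases h3 : scanDn Fl Gh L (Fl c) (Gh c) with
      | none => rw [h3] at h; simp at h
      | some k' =>
        rcases List.mem_cons.1 hc' with rfl | h4
        · omega
        · have := ih (Fl c) (Gh c) k' (Fl_le_Gh D c) h3 c' h4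
          omega
    · have h1' : Nat.blt B (Fl c) = false := Bool.eq_false_of_not_eq_true h1
      by_cases h2 : Nat.ble A (Fl c) = true
      · have h2' : A ≤ Fl c := Nat.le_of_ble_eq_true h2
        simp only [scanDn, h1', h2, cond_true, cond_false] at h
        by_cases h5 : Nat.ble (Gh c) B = true
        · simp only [h5, cond_true] at h
          rcases List.mem_cons.1 hc' with rfl | h4
          · exact h2'
          · exact ih A B k hAB h c' h4
        · have h5' : Nat.ble (Gh c) B = false := Bool.eq_false_of_not_eq_true h5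
          simp only [h5', cond_false] at h
          rcases List.mem_cons.1 hc' with rfl | h4
          · exact h2'
          · refine ih A (Gh c) k ?_ h c' h4
            have : ¬ Gh c ≤ B := by
              intro h6
              exact h5 (Nat.ble_eq_true_of_le h6)
            omega
      · have h2' : Nat.ble A (Fl c) = false := Bool.eq_false_of_not_eq_true h2
        simp [scanDn, h1', h2'] at h

lemma scanDn_spec (D : Data K N f g M Fl Fh Gl Gh) (L : List ℕ) : (∀ c ∈ L, c < N) →
    ∀ (A B k : ℕ), A ≤ B → scanDn Fl Gh L A B = some k →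
    (∀ y ∈ K, M * y ≤ B ∨ ∃ c ∈ L, (Fl c : ℝ) ≤ M * y ∧ M * y ≤ Gh c) →
    ∀ x ∈ K, M * x ≤ B → Sep K k x := by
  have hM := D.hM
  induction L with
  | nil =>
    intro _ A B k _ h _ x hx _
    simp only [scanDn, Option.some.injEq] at h
    subst h
    exact hx
  | cons c L ih =>
    intro hL A B k hAB h hcov x hx hxB
    have hcN : c < N := hL c List.mem_cons_self
    have hL' : ∀ c ∈ L, c < N := fun c hc => hL c (List.mem_cons_of_mem _ hc)
    have hlow := scanDn_lower D (c :: L) A B k hAB h
    by_cases h1 : Nat.blt B (Fl c) = true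
    · simp only [scanDn, h1, cond_true] at h
      have h1' : B < Fl c := by simpa [Nat.blt_eq] using h1
      have h1'' : (B : ℝ) < Fl c := by exact_mod_cast h1'
      cases h3 : scanDn Fl Gh L (Fl c) (Gh c) with
      | none => rw [h3] at h; simp at h
      | some k' =>
        rw [h3] at h
        simp only [Option.map_some, Option.some.injEq] at h
        subst h
        have hlow' := scanDn_lower D L (Fl c) (Gh c) k' (Fl_le_Gh D c) h3
        have hFG : (Fl c : ℝ) ≤ Gh c := by exact_mod_cast Fl_le_Gh D c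
        have hcov' : ∀ y ∈ K, M * y ≤ Gh c ∨ ∃ c ∈ L, (Fl c : ℝ) ≤ M * y ∧ M * y ≤ Gh c := by
          intro y hy
          rcases hcov y hy with h4 | ⟨c', hc', h5, h6⟩
          · left; linarith
          · rcases List.mem_cons.1 hc' with rfl | h7
            · exact Or.inl h6
            · exact Or.inr ⟨c', h7, h5, h6⟩
        have hfM : M * f c ≤ Gh c := by
          have := D.hGh c
          have := D.hfg c
          nlinarith
        have hS := ih hL' (Fl c) (Gh c) k' (Fl_le_Gh D c) h3 hcov' (f c) (fmem D hcN) hfM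
        refine ⟨hx, (B + Fl c) / (2 * M), f c, ?_, ?_, ?_, hS⟩
        · rw [lt_div_iff₀ (by positivity)]
          linarith
        · rw [div_lt_iff₀ (by positivity)]
          have := D.hFl c
          linarith
        · intro hz
          have e1 : M * ((B + Fl c) / (2 * M)) = (B + Fl c) / 2 := by field_simp
          rcases hcov _ hz with h4 | ⟨c', hc', h5, h6⟩
          · rw [e1] at h4; linarith
          · rw [e1] at h5
            rcases List.mem_cons.1 hc' with rfl | h7
            · linarith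
            · have h8 : (Fl c : ℝ) ≤ Fl c' := by exact_mod_cast hlow' c' h7
              linarith
    · have h1' : Nat.blt B (Fl c) = false := Bool.eq_false_of_not_eq_true h1
      by_cases h2 : Nat.ble A (Fl c) = true
      · simp only [scanDn, h1', h2, cond_true, cond_false] at h
        by_cases h5 : Nat.ble (Gh c) B = true
        · simp only [h5, cond_true] at h
          have h5' : Gh c ≤ B := Nat.le_of_ble_eq_true h5
          have h5'' : (Gh c : ℝ) ≤ B := by exact_mod_cast h5'
          refine ih hL' A B k hAB h ?_ x hx hxB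
          intro y hy
          rcases hcov y hy with h4 | ⟨c', hc', h5, h6⟩
          · exact Or.inl h4
          · rcases List.mem_cons.1 hc' with rfl | h7
            · left; linarith
            · exact Or.inr ⟨c', h7, h5, h6⟩
        · have h5' : Nat.ble (Gh c) B = false := Bool.eq_false_of_not_eq_true h5
          simp only [h5', cond_false] at h
          have h9 : B ≤ Gh c := by
            have : ¬ Gh c ≤ B := by
              intro h6
              exact h5 (Nat.ble_eq_true_of_le h6)
            omega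
          have h9' : (B : ℝ) ≤ Gh c := by exact_mod_cast h9
          refine ih hL' A (Gh c) k (by omega) h ?_ x hx (by linarith)
          intro y hy
          rcases hcov y hy with h4 | ⟨c', hc', h5, h6⟩
          · left; linarith
          · rcases List.mem_cons.1 hc' with rfl | h7
            · exact Or.inl h6
            · exact Or.inr ⟨c', h7, h5, h6⟩
      · have h2' : Nat.ble A (Fl c) = false := Bool.eq_false_of_not_eq_true h2
        simp [scanDn, h1', h2'] at h

/-- lower bound for the number of components -/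
lemma card_ge_of_scanDn (D : Data K N f g M Fl Fh Gl Gh) {L : List ℕ} {c1 k : ℕ} (hc1 : c1 < N)
    (hfin : Finite (ConnectedComponents K))
    (hL : ∀ c ∈ L, c < N) (hL2 : ∀ c < N, c = c1 ∨ c ∈ L)
    (h : scanDn Fl Gh L (Fl c1) (Gh c1) = some k) :
    k + 1 ≤ Nat.card (ConnectedComponents K) := by
  classical
  have hM := D.hM
  have hS : Sep K k (f c1) := by
    refine scanDn_spec D L hL (Fl c1) (Gh c1) k (Fl_le_Gh D c1) h ?_ (f c1) (fmem D hc1) ?_
    · intro y hy
      obtain ⟨c, hc, h1, h2⟩ := (D.hK y).1 hy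
      have h3 : (Fl c : ℝ) ≤ M * y := by
        have := D.hFl c
        nlinarith
      have h4 : M * y ≤ Gh c := by
        have := D.hGh c
        nlinarith
      rcases hL2 c hc with rfl | hcL
      · exact Or.inl h4
      · exact Or.inr ⟨c, hcL, h3, h4⟩
    · have := D.hGh c1
      have := D.hfg c1
      nlinarith
  obtain ⟨U, hU, _⟩ := sep_card k (f c1) hS
  have := Fintype.ofFinite (ConnectedComponents K)
  rw [Nat.card_eq_fintype_card, ← hU]
  exact Finset.card_le_univ U

end

end Pool.Agent.CrNM
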