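import Mathlib
import Pool.Agent.CrNM.Basic

/-!
Closures of `σ_{-r}` on integers with restricted prime factors.
-/

namespace Pool.Agent.CrNM

open Finset Filter Topology

/-- Positive integers all of whose prime factors lie in `A`. -/
def Num (A : Set ℕ) : Set ℕ := {n | 1 ≤ n ∧ ∀ p, p.Prime → p ∣ n → p ∈ A}

/-- Closure of the values of `σ_{-r}` on `Num A`. -/
def DD (r : ℝ) (A : Set ℕ) : Set ℝ := closure (sig r '' Num A)

variable {r : ℝ}

lemma one_mem_Num (A : Set ℕ) : 1 ∈ Num A :=
  ⟨le_rfl, fun _ hp h => absurd (Nat.dvd_one.mp h) hp.one_lt.ne'⟩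

lemma one_mem_DD (A : Set ℕ) : (1 : ℝ) ∈ DD r A :=
  subset_closure ⟨1, one_mem_Num A, sig_one⟩

lemma DD_mono {A B : Set ℕ} (h : A ⊆ B) : DD r A ⊆ DD r B :=
  closure_mono (Set.image_mono fun _ hn => ⟨hn.1, fun p hp hd => h (hn.2 p hp hd)⟩)

lemma coprime_of_Num {A : Set ℕ} {p n : ℕ} (hp : p.Prime) (hpA : p ∉ A) (hn : n ∈ Num A) (e : ℕ) :
    (p ^ e).Coprime n := by
  apply Nat.Coprime.pow_left
  exact (Nat.Prime.coprime_iff_not_dvd hp).2 fun h => hpA (hn.2 p hp h)

lemma pow_mul_mem {A : Set ℕ} {p n : ℕ} (hp : p.Prime) (hn : n ∈ Num A) (e : ℕ) :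
    p ^ e * n ∈ Num (insert p A) := by
  refine ⟨?_, fun q hq hd => ?_⟩
  · have := hp.pos
    have := hn.1
    have : 0 < p ^ e * n := by positivity
    omega
  · rcases hq.dvd_mul.1 hd with h | h
    · left
      exact (Nat.prime_dvd_prime_iff_eq hq hp).1 (hq.dvd_of_dvd_pow h)
    · right
      exact hn.2 q hq h

lemma step_ss {A : Set ℕ} {p : ℕ} (hp : p.Prime) (hpA : p ∉ A) (e : ℕ) {x : ℝ}
    (hx : x ∈ DD r A) : ss r p e * x ∈ DD r (insert p A) := by
  have h1 : Set.MapsTo (fun x => ss r p e * x) (sig r '' Num A) (sig r '' Num (insert p A)) := by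
    rintro _ ⟨n, hn, rfl⟩
    refine ⟨p ^ e * n, pow_mul_mem hp hn e, ?_⟩
    rw [sig_mul (coprime_of_Num hp hpA hn e), sig_prime_pow hp]
  exact h1.closure (continuous_const.mul continuous_id) hx

lemma step_si (hr : 0 < r) {A : Set ℕ} {p : ℕ} (hp : p.Prime) (hpA : p ∉ A) {x : ℝ}
    (hx : x ∈ DD r A) : si r p * x ∈ DD r (insert p A) := by
  have h1 := (tendsto_ss hr hp.two_le).mul_const x
  exact isClosed_closure.mem_of_tendsto h1 (Eventually.of_forall fun e => step_ss hp hpA e hx)

/-- decomposition of an integer -/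
lemma exists_decomp {A : Set ℕ} {p n : ℕ} (hp : p.Prime) (hpA : p ∉ A)
    (hn : n ∈ Num (insert p A)) : ∃ e m, m ∈ Num A ∧ n = p ^ e * m ∧ sig r n = ss r p e * sig r m := by
  have hn0 : n ≠ 0 := by have := hn.1; omega
  obtain ⟨e, m, hm, hnm⟩ := Nat.exists_eq_pow_mul_and_not_dvd hn0 p hp.ne_one
  have hmN : m ∈ Num A := by
    refine ⟨?_, fun q hq hd => ?_⟩
    · rcases Nat.eq_zero_or_pos m with h | h
      · subst h; simp at hnm; exact absurd hnm hn0
      · exact h
    · rcases hn.2 q hq (hnm ▸ hd.mul_left _) with h | h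
      · subst h; exact absurd hd hm
      · exact h
  refine ⟨e, m, hmN, hnm, ?_⟩
  rw [hnm, sig_mul (coprime_of_Num hp hpA hmN e), sig_prime_pow hp]

/-! ### The Euler product -/

/-- `ζ(r)` -/
noncomputable def ZT (r : ℝ) : ℝ := ∑' n : ℕ, xx r n

/-- partial Euler product -/
noncomputable def PP (r : ℝ) (n : ℕ) : ℝ := ∏ p ∈ n.primesBelow, si r p

/-- tail of the Euler product over primes `> y` -/
noncomputable def TT (r : ℝ) (y : ℕ) : ℝ := ZT r / PP r (y + 1)

/-- `n ↦ n^{-r}` as a monoid homomorphism -/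
noncomputable def xhom (r : ℝ) (hr : 0 < r) : ℕ →*₀ ℝ where
  toFun := xx r
  map_zero' := by
    simp only [xx, Nat.cast_zero]
    exact Real.zero_rpow (by linarith)
  map_one' := xx_one
  map_mul' := xx_mul

lemma tendsto_PP (hr : 1 < r) : Tendsto (PP r) atTop (𝓝 (ZT r)) := by
  have hs : Summable (fun n => ‖xhom r (by linarith) n‖) := by
    have : Summable (fun n : ℕ => (n : ℝ) ^ (-r)) := Real.summable_nat_rpow.2 (by linarith)
    refine this.congr fun n => ?_
    show _ = ‖xx r n‖
    rw [Real.norm_of_nonneg (by unfold xx; positivity)]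
    rfl
  exact EulerProduct.eulerProduct_completely_multiplicative hs

lemma one_lt_si (hr : 0 < r) {p : ℕ} (hp : 2 ≤ p) : 1 < si r p := by
  have h1 := xx_lt_one hr hp
  have h2 := xx_pos (r := r) (p := p) (by omega)
  unfold si
  rw [one_lt_inv₀ (by linarith)]
  linarith

lemma PP_pos (hr : 0 < r) (n : ℕ) : 0 < PP r n :=
  prod_pos fun _ hp => si_pos hr (Nat.two_le_of_mem_primesBelow hp)

lemma PP_mono (hr : 0 < r) : Monotone (PP r) := by
  intro a b hab
  exact prod_le_prod_of_subset_of_one_le (Nat.primesBelow_mono hab)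
    (fun p hp => (si_pos hr (Nat.two_le_of_mem_primesBelow hp)).le)
    (fun p hp _ => (one_lt_si hr (Nat.two_le_of_mem_primesBelow hp)).le)

lemma PP_le (hr : 1 < r) (n : ℕ) : PP r n ≤ ZT r :=
  (PP_mono (by linarith)).ge_of_tendsto (tendsto_PP hr) n

lemma ZT_pos (hr : 1 < r) : 0 < ZT r := (PP_pos (by linarith) 0).trans_le (PP_le hr 0)

lemma one_le_TT (hr : 1 < r) (y : ℕ) : 1 ≤ TT r y := by
  unfold TT
  rw [one_le_div (PP_pos (by linarith) _)]
  exact PP_le hr _

lemma TT_pos (hr : 1 < r) (y : ℕ) : 0 < TT r y := by linarith [one_le_TT hr y]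

lemma TT_anti (hr : 1 < r) : Antitone (TT r) := by
  intro a b hab
  unfold TT
  apply div_le_div_of_nonneg_left (ZT_pos hr).le (PP_pos (by linarith) _)
  exact PP_mono (by linarith) (by omega)

lemma TT_prime (hr : 1 < r) {y : ℕ} (hq : (y + 1).Prime) : TT r y = si r (y + 1) * TT r (y + 1) := by
  unfold TT
  have h1 : PP r (y + 1 + 1) = PP r (y + 1) * si r (y + 1) := by
    unfold PP
    rw [Nat.primesBelow_succ, if_pos hq, prod_insert (by simp [Nat.mem_primesBelow]), mul_comm]
  have h2 := PP_pos (r := r) (by linarith) (y + 1)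
  have h3 := si_pos (r := r) (by linarith) hq.two_le
  rw [h1]
  field_simp

lemma TT_not_prime {y : ℕ} (hq : ¬ (y + 1).Prime) : TT r y = TT r (y + 1) := by
  unfold TT
  have h1 : PP r (y + 1 + 1) = PP r (y + 1) := by
    unfold PP
    rw [Nat.primesBelow_succ, if_neg hq]
  rw [h1]

lemma tendsto_TT (hr : 1 < r) : Tendsto (TT r) atTop (𝓝 1) := by
  have h1 := (tendsto_PP hr).comp (tendsto_add_atTop_nat 1)
  have h2 := (tendsto_const_nhds (x := ZT r)).div h1 (ZT_pos hr).ne'
  rw [div_self (ZT_pos hr).ne'] at h2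
  exact h2

lemma insert_gt {y : ℕ} : insert (y + 1) {q : ℕ | y + 1 < q} = {q : ℕ | y < q} := by
  ext q
  simp only [Set.mem_insert_iff, Set.mem_ofPred_eq]
  omega

/-- upper bound of `σ_{-r}` on `y`-rough numbers -/
lemma sig_le_TT (hr : 1 < r) : ∀ n y : ℕ, n ∈ Num {q | y < q} → sig r n ≤ TT r y := by
  intro n
  induction n using Nat.strong_induction_on with
  | _ n ih =>
    intro y hn
    rcases Nat.lt_or_ge 1 n with h1 | h1
    · set p := n.minFac with hpdef
      have hp : p.Prime := Nat.minFac_prime (by omega)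
      have hpn : p ∣ n := Nat.minFac_dvd n
      have hyp : y < p := hn.2 p hp hpn
      have hmem : n ∈ Num (insert p {q : ℕ | p < q}) := by
        refine ⟨hn.1, fun q hq hd => ?_⟩
        have : p ≤ q := Nat.minFac_le_of_dvd hq.two_le hd
        simp only [Set.mem_insert_iff, Set.mem_ofPred_eq]
        omega
      obtain ⟨e, m, hm, hnm, hsig⟩ := exists_decomp (r := r) hp (by simp) hmem
      have hlt : m < n := by
        rcases Nat.eq_zero_or_pos e with he | he
        · exfalso
          subst he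
          rw [pow_zero, one_mul] at hnm
          subst hnm
          have := hm.2 p hp hpn
          simp at this
        · have h3 : 2 ≤ p ^ e := by
            calc 2 ≤ p := hp.two_le
              _ = p ^ 1 := (pow_one p).symm
              _ ≤ p ^ e := Nat.pow_le_pow_right hp.pos he
          have := hm.1
          rw [hnm]
          nlinarith
      have h2 := ih m hlt p hm
      rw [hsig]
      obtain ⟨z, hz⟩ : ∃ z, p = z + 1 := ⟨p - 1, by have := hp.pos; omega⟩
      calc ss r p e * sig r m ≤ si r p * TT r p := by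
            apply mul_le_mul (ss_lt_si (by linarith) hp.two_le e).le h2
            · unfold sig; exact sum_nonneg fun d _ => by positivity
            · exact (si_pos (by linarith) hp.two_le).le
        _ = TT r z := by rw [hz] at hp ⊢; exact (TT_prime hr hp).symm
        _ ≤ TT r y := TT_anti hr (by omega)
    · have : n = 1 := by have := hn.1; omega
      rw [this, sig_one]
      exact one_le_TT hr y

lemma one_le_sig (n : ℕ) (hn : 1 ≤ n) : 1 ≤ sig r n := by
  rw [sig_eq]
  have h1 : xx r 1 ≤ ∑ d ∈ n.divisors, xx r d := by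
    apply single_le_sum (f := fun d => xx r d) (fun d _ => by unfold xx; positivity)
    rw [Nat.mem_divisors]
    exact ⟨one_dvd _, by omega⟩
  rwa [xx_one] at h1

/-- the closure on `y`-rough numbers is a full interval -/
lemma rough_closure (hr : 1 < r) {y0 : ℕ}
    (H : ∀ q : ℕ, q.Prime → y0 < q → 1 + xx r q ≤ TT r q) {x : ℝ} (h1 : 1 ≤ x)
    (h2 : x ≤ TT r y0) : x ∈ DD r {q | y0 < q} := by
  have hr0 : 0 < r := by linarith
  -- approximation statement
  have key : ∀ ε : ℝ, 0 < ε → ∃ u ∈ DD r {q | y0 < q}, u ≤ x ∧ x ≤ (1 + ε) * u := by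
    intro ε hε
    obtain ⟨Y, hY1, hY2⟩ : ∃ Y, y0 ≤ Y ∧ TT r Y < 1 + ε := by
      have := ((tendsto_TT hr).eventually (eventually_lt_nhds (by linarith : (1 : ℝ) < 1 + ε))).and
        (eventually_ge_atTop y0)
      obtain ⟨Y, hY⟩ := this.exists
      exact ⟨Y, hY.2, hY.1⟩
    have main : ∀ d y : ℕ, y0 ≤ y → y + d = Y → ∀ x : ℝ, 1 ≤ x → x ≤ TT r y →
        ∃ u ∈ DD r {q | y < q}, u ≤ x ∧ x ≤ (1 + ε) * u := by
      intro d
      induction d with
      | zero =>
        intro y hy hd x hx1 hx2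
        have : y = Y := by omega
        subst this
        exact ⟨1, one_mem_DD _, hx1, by linarith⟩
      | succ d ih =>
        intro y hy hd x hx1 hx2
        have ih' := ih (y + 1) (by omega) (by omega)
        rw [← insert_gt]
        by_cases hq : (y + 1).Prime
        · have hT := TT_prime hr hq
          obtain ⟨t, ht, ht1, ht2⟩ := split (r := r) hr0 (p := y + 1) hq.two_le (k := 0) (a := 1)
            (b := TT r (y + 1)) (x := x) one_pos
            (by
              rw [ss_zero, ss_succ, ss_zero]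
              simpa using H (y + 1) hq (by omega))
            (by rw [ss_zero]; linarith) (by rw [← hT]; exact hx2)
          have htpos : 0 < t := by
            rcases ht with rfl | ⟨e, _, rfl⟩
            · exact si_pos hr0 hq.two_le
            · exact ss_pos hq.pos e
          obtain ⟨u, hu, hu1, hu2⟩ := ih' (x / t) (by rw [one_le_div htpos]; linarith)
            (by rw [div_le_iff₀ htpos]; linarith)
          refine ⟨t * u, ?_, ?_, ?_⟩
          · rcases ht with rfl | ⟨e, _, rfl⟩
            · exact step_si hr0 hq (by simp) hu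
            · exact step_ss hq (by simp) e hu
          · rw [le_div_iff₀ htpos] at hu1; linarith
          · rw [div_le_iff₀ htpos] at hu2; linarith
        · rw [TT_not_prime hq] at hx2
          obtain ⟨u, hu, hu1, hu2⟩ := ih' x hx1 hx2
          exact ⟨u, DD_mono (Set.subset_insert _ _) hu, hu1, hu2⟩
    exact main (Y - y0) y0 le_rfl (by omega) x h1 h2
  -- conclude
  unfold DD
  rw [← closure_closure]
  refine Metric.mem_closure_iff.2 fun ε hε => ?_
  obtain ⟨u, hu, hu1, hu2⟩ := key (ε / (2 * x)) (by positivity)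
  refine ⟨u, hu, ?_⟩
  rw [Real.dist_eq, abs_of_nonneg (by linarith)]
  have hx0 : 0 < x := by linarith
  have h3 : x - u ≤ ε / (2 * x) * u := by linarith
  have h4 : ε / (2 * x) * u ≤ ε / (2 * x) * x := by
    apply mul_le_mul_of_nonneg_left hu1 (by positivity)
  have h5 : ε / (2 * x) * x = ε / 2 := by field_simp
  linarith

/-- `T(q) ≥ 1 + ∑_{p ∈ S} p^{-r}` -/
lemma TT_ge (hr : 1 < r) {y : ℕ} {S : Finset ℕ} (hS : ∀ p ∈ S, p.Prime ∧ y < p) :
    1 + ∑ p ∈ S, xx r p ≤ TT r y := by
  have hpos : 1 ≤ ∏ p ∈ S, p := by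
    have : 0 < ∏ p ∈ S, p := prod_pos fun p hp => (hS p hp).1.pos
    omega
  have hmem : (∏ p ∈ S, p) ∈ Num {q | y < q} := by
    refine ⟨hpos, fun q hq hd => ?_⟩
    obtain ⟨p, hp, hqp⟩ := (hq.prime.dvd_finsetProd_iff _).1 hd
    rw [(Nat.prime_dvd_prime_iff_eq hq (hS p hp).1).1 hqp]
    exact (hS p hp).2
  refine le_trans ?_ (sig_le_TT hr _ y hmem)
  have h1 : (1 : ℕ) ∉ S := fun h => absurd (hS 1 h).1 Nat.not_prime_one
  have h2 : 1 + ∑ p ∈ S, xx r p = ∑ p ∈ insert 1 S, xx r p := by
    rw [sum_insert h1, xx_one]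
  rw [h2, sig_eq]
  apply sum_le_sum_of_subset_of_nonneg
  · intro p hp
    rw [Nat.mem_divisors]
    refine ⟨?_, by omega⟩
    rcases mem_insert.1 hp with rfl | h
    · exact one_dvd _
    · exact dvd_prod_of_mem _ h
  · intro p _ _
    unfold xx
    positivity

end Pool.Agent.CrNM
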