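import Mathlib
import Pool.Agent.CrNM.Rough

/-!
Exact description of the closure of `σ_{-r}(ℕ)` as a finite union of intervals.
-/

namespace Pool.Agent.CrNM

open Finset Filter Topology

variable {r : ℝ}

/-- lower endpoint of the interval with code `c` -/
noncomputable def fv (r : ℝ) : List (ℕ × ℕ) → ℕ → ℝ
  | [], _ => 1
  | (p, k) :: ps, c => ss r p (c % (k + 1)) * fv r ps (c / (k + 1))

/-- upper endpoint of the interval with code `c` -/
noncomputable def gv (r Z : ℝ) : List (ℕ × ℕ) → ℕ → ℝ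
  | [], _ => Z
  | (p, k) :: ps, c =>
    (if c % (k + 1) = k then si r p else ss r p (c % (k + 1))) * gv r Z ps (c / (k + 1))

/-- number of codes -/
def Nn : List (ℕ × ℕ) → ℕ
  | [] => 1
  | (_, k) :: ps => (k + 1) * Nn ps

/-- allowed primes -/
def setA (ps : List (ℕ × ℕ)) (y : ℕ) : Set ℕ := {q | q ∈ ps.map Prod.fst ∨ y < q}

/-- well-formedness of the list -/
def WF (y : ℕ) : List (ℕ × ℕ) → Prop
  | [] => True
  | (p, _) :: ps => p.Prime ∧ p ≤ y ∧ p ∉ ps.map Prod.fst ∧ WF y ps

lemma setA_cons (p k : ℕ) (ps : List (ℕ × ℕ)) (y : ℕ) :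
    setA ((p, k) :: ps) y = insert p (setA ps y) := by
  ext q
  simp only [setA, List.map_cons, List.mem_cons, Set.mem_insert_iff, Set.mem_ofPred_eq, or_assoc]

lemma setA_nil (y : ℕ) : setA [] y = {q | y < q} := by
  ext q
  simp [setA]

lemma fv_pos (ps : List (ℕ × ℕ)) (y : ℕ) (h : WF y ps) (c : ℕ) : 0 < fv r ps c := by
  induction ps generalizing c with
  | nil => simp [fv]
  | cons a ps ih =>
    obtain ⟨p, k⟩ := a
    simp only [fv]
    exact mul_pos (ss_pos h.1.pos _) (ih h.2.2.2 _)

lemma mul_fv_le_gv (hr : 0 < r) {Z : ℝ} (hZ : 0 < Z) (ps : List (ℕ × ℕ)) (y : ℕ) (h : WF y ps)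
    (c : ℕ) : fv r ps c * Z ≤ gv r Z ps c := by
  induction ps generalizing c with
  | nil => simp [fv, gv]
  | cons a ps ih =>
    obtain ⟨p, k⟩ := a
    simp only [fv, gv]
    have h1 := ih h.2.2.2 (c / (k + 1))
    have h2 : ss r p (c % (k + 1)) ≤ if c % (k + 1) = k then si r p else ss r p (c % (k + 1)) := by
      split_ifs
      · exact (ss_lt_si hr h.1.two_le _).le
      · exact le_rfl
    have h3 := fv_pos (r := r) ps y h.2.2.2 (c / (k + 1))
    have h4 := ss_pos (r := r) h.1.pos (c % (k + 1))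
    calc ss r p (c % (k + 1)) * fv r ps (c / (k + 1)) * Z
        = ss r p (c % (k + 1)) * (fv r ps (c / (k + 1)) * Z) := by ring
      _ ≤ _ := mul_le_mul h2 h1 (by positivity) (h4.le.trans h2)

/-- Every value lies in one of the intervals. -/
lemma cover (hr : 1 < r) (ps : List (ℕ × ℕ)) (y : ℕ) (h : WF y ps) :
    ∀ n ∈ Num (setA ps y), ∃ c < Nn ps, fv r ps c ≤ sig r n ∧ sig r n ≤ gv r (TT r y) ps c := by
  induction ps with
  | nil =>
    intro n hn
    rw [setA_nil] at hn
    exact ⟨0, by simp [Nn], one_le_sig n hn.1, sig_le_TT hr n y hn⟩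
  | cons a ps ih =>
    obtain ⟨p, k⟩ := a
    intro n hn
    rw [setA_cons] at hn
    have hp := h.1
    have hpA : p ∉ setA ps y := by
      simp only [setA, Set.mem_ofPred_eq, not_or]
      exact ⟨h.2.2.1, by have := h.2.1; omega⟩
    obtain ⟨e, m, hm, hnm, hsig⟩ := exists_decomp (r := r) hp hpA hn
    obtain ⟨c, hc, h1, h2⟩ := ih h.2.2.2 m hm
    have hmod : (min e k + (k + 1) * c) % (k + 1) = min e k := by
      rw [Nat.add_mul_mod_self_left, Nat.mod_eq_of_lt]
      omega
    have hdiv : (min e k + (k + 1) * c) / (k + 1) = c := by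
      rw [Nat.add_mul_div_left _ _ (by omega), Nat.div_eq_of_lt (by omega), zero_add]
    have hf := fv_pos (r := r) ps y h.2.2.2 c
    have hm1 := one_le_sig (r := r) m hm.1
    refine ⟨min e k + (k + 1) * c, ?_, ?_, ?_⟩
    · simp only [Nn]
      have : min e k < k + 1 := by omega
      nlinarith
    · simp only [fv]
      rw [hmod, hdiv, hsig]
      apply mul_le_mul (ss_mono hp.pos (min_le_left _ _)) h1 hf.le
      exact (ss_pos hp.pos _).le
    · simp only [gv]
      rw [hmod, hdiv, hsig]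
      have h3 : ss r p e ≤ if min e k = k then si r p else ss r p (min e k) := by
        split_ifs with h4
        · exact (ss_lt_si (by linarith) hp.two_le _).le
        · have : min e k = e := by omega
          rw [this]
      apply mul_le_mul h3 h2 (by linarith)
      exact (ss_pos hp.pos e).le.trans h3

/-- Every interval is contained in the closure. -/
lemma fill (hr : 1 < r) (ps : List (ℕ × ℕ)) (y : ℕ) (h : WF y ps)
    (H : ∀ q : ℕ, q.Prime → y < q → 1 + xx r q ≤ TT r q)
    (hk : ∀ a ∈ ps, ss r a.1 (a.2 + 1) ≤ ss r a.1 a.2 * TT r y) :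
    ∀ c x, fv r ps c ≤ x → x ≤ gv r (TT r y) ps c → x ∈ DD r (setA ps y) := by
  have hr0 : 0 < r := by linarith
  induction ps with
  | nil =>
    intro c x h1 h2
    rw [setA_nil]
    exact rough_closure hr H h1 h2
  | cons a ps ih =>
    obtain ⟨p, k⟩ := a
    intro c x h1 h2
    rw [setA_cons]
    have hp := h.1
    have hpA : p ∉ setA ps y := by
      simp only [setA, Set.mem_ofPred_eq, not_or]
      exact ⟨h.2.2.1, by have := h.2.1; omega⟩
    have ih' := ih h.2.2.2 (fun a ha => hk a (List.mem_cons_of_mem _ ha)) (c / (k + 1))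
    have hf := fv_pos (r := r) ps y h.2.2.2 (c / (k + 1))
    simp only [fv, gv] at h1 h2
    by_cases hc : c % (k + 1) = k
    · rw [if_pos hc] at h2
      rw [hc] at h1
      have hk' : ss r p (k + 1) ≤ ss r p k * TT r y := hk (p, k) List.mem_cons_self
      have hfg := mul_fv_le_gv hr0 (TT_pos hr y) ps y h.2.2.2 (c / (k + 1))
      obtain ⟨t, ht, ht1, ht2⟩ := split (r := r) hr0 hp.two_le (k := k) hf
        (b := gv r (TT r y) ps (c / (k + 1))) (x := x)
        (by
          calc ss r p (k + 1) * fv r ps (c / (k + 1))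
              ≤ (ss r p k * TT r y) * fv r ps (c / (k + 1)) := by gcongr
            _ = ss r p k * (fv r ps (c / (k + 1)) * TT r y) := by ring
            _ ≤ _ := by
              apply mul_le_mul_of_nonneg_left hfg (ss_pos hp.pos k).le)
        h1 h2
      have htpos : 0 < t := by
        rcases ht with rfl | ⟨e, _, rfl⟩
        · exact si_pos hr0 hp.two_le
        · exact ss_pos hp.pos e
      have hmem := ih' (x / t) (by rw [le_div_iff₀ htpos]; linarith)
        (by rw [div_le_iff₀ htpos]; linarith)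
      have hxt : x = t * (x / t) := by field_simp
      rw [hxt]
      rcases ht with rfl | ⟨e, _, rfl⟩
      · exact step_si hr0 hp hpA hmem
      · exact step_ss hp hpA e hmem
    · rw [if_neg hc] at h2
      have htpos := ss_pos (r := r) hp.pos (c % (k + 1))
      have hmem := ih' (x / ss r p (c % (k + 1))) (by rw [le_div_iff₀ htpos]; linarith)
        (by rw [div_le_iff₀ htpos]; linarith)
      have hxt : x = ss r p (c % (k + 1)) * (x / ss r p (c % (k + 1))) := by field_simp
      rw [hxt]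
      exact step_ss hp hpA _ hmem

/-- The closure of `{σ_{-r}(n) : n ≥ 1}`. -/
noncomputable def KK (r : ℝ) : Set ℝ := closure (sig r '' {n : ℕ | 1 ≤ n})

lemma KK_eq (ps : List (ℕ × ℕ)) (y : ℕ) (hps : ∀ p, p.Prime → p ≤ y → p ∈ ps.map Prod.fst) :
    KK r = DD r (setA ps y) := by
  unfold KK DD
  congr 2
  ext n
  constructor
  · intro hn
    refine ⟨hn, fun p hp _ => ?_⟩
    rcases Nat.lt_or_ge y p with h | h
    · exact Or.inr h
    · exact Or.inl (hps p hp h)
  · intro hn
    exact hn.1

lemma fv_le_gv (hr : 1 < r) (ps : List (ℕ × ℕ)) (y : ℕ) (h : WF y ps) (c : ℕ) :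
    fv r ps c ≤ gv r (TT r y) ps c := by
  have h1 := mul_fv_le_gv (by linarith : 0 < r) (TT_pos hr y) ps y h c
  have h2 := one_le_TT hr y
  have h3 := fv_pos (r := r) ps y h c
  nlinarith

/-- the closure is the union of the intervals -/
lemma mem_KK_iff (hr : 1 < r) (ps : List (ℕ × ℕ)) (y : ℕ) (h : WF y ps)
    (hps : ∀ p, p.Prime → p ≤ y → p ∈ ps.map Prod.fst)
    (H : ∀ q : ℕ, q.Prime → y < q → 1 + xx r q ≤ TT r q)
    (hk : ∀ a ∈ ps, ss r a.1 (a.2 + 1) ≤ ss r a.1 a.2 * TT r y) (x : ℝ) :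
    x ∈ KK r ↔ ∃ c < Nn ps, fv r ps c ≤ x ∧ x ≤ gv r (TT r y) ps c := by
  constructor
  · intro hx
    have h1 : KK r ⊆ ⋃ c ∈ Finset.range (Nn ps), Set.Icc (fv r ps c) (gv r (TT r y) ps c) := by
      unfold KK
      apply closure_minimal
      · rintro _ ⟨n, hn, rfl⟩
        have hn' : n ∈ Num (setA ps y) := by
          refine ⟨hn, fun p hp _ => ?_⟩
          rcases Nat.lt_or_ge y p with h | h
          · exact Or.inr h
          · exact Or.inl (hps p hp h)
        obtain ⟨c, hc, h1, h2⟩ := cover hr ps y h n hn'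
        simp only [Set.mem_iUnion]
        exact ⟨c, Finset.mem_range.2 hc, h1, h2⟩
      · apply isClosed_biUnion_finset
        intro c _
        exact isClosed_Icc
    have h2 := h1 hx
    simp only [Set.mem_iUnion] at h2
    obtain ⟨c, hc, h3⟩ := h2
    exact ⟨c, Finset.mem_range.1 hc, h3.1, h3.2⟩
  · rintro ⟨c, _, h1, h2⟩
    rw [KK_eq ps y hps]
    exact fill hr ps y h H hk c x h1 h2

end Pool.Agent.CrNM
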