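import Mathlib
import Pool.Agent.CrNM.Types
import Pool.Agent.CrNM.Count

/-!
Rational enclosures of `p^{-a/b}` and of the endpoints of the intervals.
-/

namespace Pool.Agent.CrNM

open Finset Filter Topology

lemma xx_pow_mul (a b p : ℕ) (hb : 0 < b) (hp : 0 < p) :
    xx ((a : ℝ) / b) p ^ b * (p : ℝ) ^ a = 1 := by
  have hp' : (0 : ℝ) < p := by exact_mod_cast hp
  have hb' : (b : ℝ) ≠ 0 := by positivity
  unfold xx
  rw [← Real.rpow_natCast (((p : ℝ) ^ (-((a : ℝ) / b)))) b, ← Real.rpow_mul hp'.le,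
    ← Real.rpow_natCast (p : ℝ) a, ← Real.rpow_add hp']
  have : -((a : ℝ) / b) * b + a = 0 := by field_simp; ring
  rw [this, Real.rpow_zero]

/-- lower enclosure -/
lemma enc_lo {a b p l M : ℕ} (hb : 0 < b) (hp : 0 < p) (h : l ^ b * p ^ a ≤ M ^ b) :
    (l : ℝ) ≤ M * xx ((a : ℝ) / b) p := by
  have hp' : (0 : ℝ) < p := by exact_mod_cast hp
  have h1 := xx_pow_mul a b p hb hp
  have hx := xx_pos (r := (a : ℝ) / b) hp
  by_contra hcon
  push Not at hcon
  have h2 : (M * xx ((a : ℝ) / b) p) ^ b < (l : ℝ) ^ b :=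
    pow_lt_pow_left₀ hcon (by positivity) (by omega)
  have h3 : (l : ℝ) ^ b * (p : ℝ) ^ a ≤ (M : ℝ) ^ b := by exact_mod_cast h
  have h4 : (M * xx ((a : ℝ) / b) p) ^ b * (p : ℝ) ^ a = (M : ℝ) ^ b := by
    rw [mul_pow, mul_assoc, h1, mul_one]
  have h5 : (0 : ℝ) < (p : ℝ) ^ a := by positivity
  nlinarith

/-- upper enclosure -/
lemma enc_hi {a b p u M : ℕ} (hb : 0 < b) (hp : 0 < p) (h : M ^ b ≤ u ^ b * p ^ a) :
    M * xx ((a : ℝ) / b) p ≤ (u : ℝ) := by
  have hp' : (0 : ℝ) < p := by exact_mod_cast hp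
  have h1 := xx_pow_mul a b p hb hp
  have hx := xx_pos (r := (a : ℝ) / b) hp
  by_contra hcon
  push Not at hcon
  have h2 : (u : ℝ) ^ b < (M * xx ((a : ℝ) / b) p) ^ b :=
    pow_lt_pow_left₀ hcon (by positivity) (by omega)
  have h3 : (M : ℝ) ^ b ≤ (u : ℝ) ^ b * (p : ℝ) ^ a := by exact_mod_cast h
  have h4 : (M * xx ((a : ℝ) / b) p) ^ b * (p : ℝ) ^ a = (M : ℝ) ^ b := by
    rw [mul_pow, mul_assoc, h1, mul_one]
  have h5 : (0 : ℝ) < (p : ℝ) ^ a := by positivity
  nlinarith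

/-- the scale -/
def SC : ℕ := 1000000000000

/-- lower bounds for `SC * (1 + x + ... + x^e)` from `l ≤ SC * x` -/
def sl (l : ℕ) : ℕ → ℕ
  | 0 => SC
  | e + 1 => SC + l * sl l e / SC

/-- upper bounds for `SC * (1 + x + ... + x^e)` from `SC * x ≤ u` -/
def su (u : ℕ) : ℕ → ℕ
  | 0 => SC
  | e + 1 => SC + u * su u e / SC + 1

lemma SC_pos : (0 : ℝ) < SC := by norm_num [SC]

section
variable {r : ℝ} {p l u : ℕ}

lemma sl_le (hp : 0 < p) (hl : (l : ℝ) ≤ SC * xx r p) (e : ℕ) :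
    (sl l e : ℝ) ≤ SC * ss r p e := by
  have hS := SC_pos
  induction e with
  | zero => simp [sl, ss_zero]
  | succ e ih =>
    rw [ss_succ', sl]
    push_cast
    have h1 : ((l * sl l e / SC : ℕ) : ℝ) ≤ (l * sl l e : ℕ) / (SC : ℝ) := Nat.cast_div_le
    push_cast at h1
    have hx := xx_pos (r := r) hp
    have hs := ss_pos (r := r) hp e
    have h2 : (l : ℝ) * sl l e ≤ (SC * xx r p) * (SC * ss r p e) :=
      mul_le_mul hl ih (by positivity) (by positivity)
    have h3 : (l : ℝ) * sl l e / SC ≤ SC * (xx r p * ss r p e) := by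
      rw [div_le_iff₀ hS]
      linarith
    linarith

lemma le_su (hp : 0 < p) (hu : SC * xx r p ≤ (u : ℝ)) (e : ℕ) :
    SC * ss r p e ≤ (su u e : ℝ) := by
  have hS := SC_pos
  induction e with
  | zero => simp [su, ss_zero]
  | succ e ih =>
    rw [ss_succ', su]
    push_cast
    have h1 : (u * su u e : ℝ) / (SC : ℝ) < ((u * su u e / SC : ℕ) : ℝ) + 1 := by
      rw [div_lt_iff₀ hS]
      have := Nat.lt_div_mul_add (a := u * su u e) (b := SC) (by norm_num [SC])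
      have h4 : u * su u e < (u * su u e / SC + 1) * SC := by linarith
      exact_mod_cast h4
    have hx := xx_pos (r := r) hp
    have hs := ss_pos (r := r) hp e
    have h2 : (SC * xx r p) * (SC * ss r p e) ≤ (u : ℝ) * su u e :=
      mul_le_mul hu ih (by positivity) (by positivity)
    have h3 : SC * (xx r p * ss r p e) ≤ (u : ℝ) * su u e / SC := by
      rw [le_div_iff₀ hS]
      linarith
    linarith

lemma si_lo (hr : 0 < r) (hp : 2 ≤ p) (hl : (l : ℝ) ≤ SC * xx r p) {v : ℕ}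
    (hv : v * (SC - l) ≤ SC * SC) (hlS : l < SC) : (v : ℝ) ≤ SC * si r p := by
  have hS := SC_pos
  have h1 := xx_lt_one hr hp
  have h2 : (v : ℝ) * (SC - l) ≤ SC * SC := by
    have : ((v * (SC - l) : ℕ) : ℝ) ≤ ((SC * SC : ℕ) : ℝ) := by exact_mod_cast hv
    push_cast [Nat.cast_sub hlS.le] at this
    exact this
  unfold si
  rw [← div_eq_mul_inv, le_div_iff₀ (by linarith)]
  have hv0 : (0 : ℝ) ≤ v := by positivity
  -- v (1-x) ≤ SC  ⟸ v (SC - SC x) ≤ v (SC - l) ≤ SC²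
  have h3 : SC * (v * (1 - xx r p)) ≤ SC * SC := by
    calc SC * (v * (1 - xx r p)) = v * (SC - SC * xx r p) := by ring
      _ ≤ v * (SC - l) := by
        apply mul_le_mul_of_nonneg_left _ hv0
        linarith
      _ ≤ _ := h2
  exact le_of_mul_le_mul_left h3 hS

lemma si_hi (hr : 0 < r) (hp : 2 ≤ p) (hu : SC * xx r p ≤ (u : ℝ)) {v : ℕ}
    (hv : SC * SC ≤ v * (SC - u)) (huS : u < SC) : SC * si r p ≤ (v : ℝ) := by
  have hS := SC_pos
  have h1 := xx_lt_one hr hp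
  have h2 : (SC : ℝ) * SC ≤ v * (SC - u) := by
    have : ((SC * SC : ℕ) : ℝ) ≤ ((v * (SC - u) : ℕ) : ℝ) := by exact_mod_cast hv
    push_cast [Nat.cast_sub huS.le] at this
    exact this
  unfold si
  rw [← div_eq_mul_inv, div_le_iff₀ (by linarith)]
  have hv0 : (0 : ℝ) ≤ v := by positivity
  have h3 : (SC : ℝ) * SC ≤ SC * (v * (1 - xx r p)) := by
    calc (SC : ℝ) * SC ≤ v * (SC - u) := h2
      _ ≤ v * (SC - SC * xx r p) := by
        apply mul_le_mul_of_nonneg_left _ hv0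
        linarith
      _ = _ := by ring
  exact le_of_mul_le_mul_left h3 hS

end

/-! ### Tables -/

/-- A row of the table: prime, cap, enclosure of `SC * x`, and the lists of bounds. -/
structure Row where
  p : ℕ
  k : ℕ
  l : ℕ
  u : ℕ
  fl : List ℕ
  fh : List ℕ
  gl : List ℕ
  gh : List ℕ

/-- product of table entries along the digits of a code -/
def prodR (sel : Row → List ℕ) : List Row → ℕ → ℕ → ℕ
  | [], z, _ => z
  | R :: Rs, z, c => (sel R).getD (c % (R.k + 1)) 0 * prodR sel Rs z (c / (R.k + 1))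

/-- the list of primes with caps -/
def psOf (Rs : List Row) : List (ℕ × ℕ) := Rs.map fun R => (R.p, R.k)

/-- boolean check of a row -/
def okRow (a b ZL : ℕ) (R : Row) : Bool :=
  decide (R.l ^ b * R.p ^ a ≤ SC ^ b) && decide (SC ^ b ≤ R.u ^ b * R.p ^ a) &&
  decide (R.u < SC) && decide (R.l ≤ R.u) &&
  (List.range (R.k + 1)).all (fun d => decide (R.fl.getD d 0 ≤ sl R.l d)) &&
  (List.range (R.k + 1)).all (fun d => decide (su R.u d ≤ R.fh.getD d 0)) &&
  (List.range R.k).all (fun d => decide (R.gl.getD d 0 ≤ sl R.l d)) &&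
  (List.range R.k).all (fun d => decide (su R.u d ≤ R.gh.getD d 0)) &&
  decide (R.gl.getD R.k 0 * (SC - R.l) ≤ SC * SC) &&
  decide (SC * SC ≤ R.gh.getD R.k 0 * (SC - R.u)) &&
  decide (su R.u (R.k + 1) * SC ≤ sl R.l R.k * ZL)

/-- semantic content of a row check -/
structure RowOK (r : ℝ) (Z : ℝ) (R : Row) : Prop where
  fl : ∀ d, d ≤ R.k → (R.fl.getD d 0 : ℝ) ≤ SC * ss r R.p d
  fh : ∀ d, d ≤ R.k → SC * ss r R.p d ≤ (R.fh.getD d 0 : ℝ)
  gl : ∀ d, d ≤ R.k → (R.gl.getD d 0 : ℝ) ≤ SC * (if d = R.k then si r R.p else ss r R.p d)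
  gh : ∀ d, d ≤ R.k → SC * (if d = R.k then si r R.p else ss r R.p d) ≤ (R.gh.getD d 0 : ℝ)
  step : ss r R.p (R.k + 1) ≤ ss r R.p R.k * Z

lemma okRow_spec {a b ZL : ℕ} {R : Row} {Z : ℝ} (ha : 0 < a) (hb : 0 < b) (hp : 2 ≤ R.p)
    (hZ : (ZL : ℝ) ≤ SC * Z) (h : okRow a b ZL R = true) : RowOK ((a : ℝ) / b) Z R := by
  have hS := SC_pos
  have hr : (0 : ℝ) < (a : ℝ) / b := by positivity
  simp only [okRow, Bool.and_eq_true, decide_eq_true_eq, List.all_eq_true, List.mem_range] at h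
  obtain ⟨⟨⟨⟨⟨⟨⟨⟨⟨⟨h1, h2⟩, h3⟩, h3'⟩, h4⟩, h5⟩, h6⟩, h7⟩, h8⟩, h9⟩, h10⟩ := h
  have hp0 : 0 < R.p := by omega
  have hl := enc_lo hb hp0 h1
  have hu := enc_hi hb hp0 h2
  refine ⟨?_, ?_, ?_, ?_, ?_⟩
  · intro d hd
    have := h4 d (by omega)
    have h' : (R.fl.getD d 0 : ℝ) ≤ sl R.l d := by exact_mod_cast this
    exact h'.trans (sl_le hp0 hl d)
  · intro d hd
    have := h5 d (by omega)
    have h' : (su R.u d : ℝ) ≤ R.fh.getD d 0 := by exact_mod_cast this
    exact (le_su hp0 hu d).trans h'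
  · intro d hd
    split_ifs with hdk
    · rw [hdk]
      exact si_lo hr hp hl h8 (by omega)
    · have := h6 d (by omega)
      have h' : (R.gl.getD d 0 : ℝ) ≤ sl R.l d := by exact_mod_cast this
      exact h'.trans (sl_le hp0 hl d)
  · intro d hd
    split_ifs with hdk
    · rw [hdk]
      exact si_hi hr hp hu h9 h3
    · have := h7 d (by omega)
      have h' : (su R.u d : ℝ) ≤ R.gh.getD d 0 := by exact_mod_cast this
      exact (le_su hp0 hu d).trans h'
  · have e1 : ((su R.u (R.k + 1) * SC : ℕ) : ℝ) ≤ ((sl R.l R.k * ZL : ℕ) : ℝ) := by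
      exact_mod_cast h10
    push_cast at e1
    have e2 := le_su (r := (a : ℝ) / b) hp0 hu (R.k + 1)
    have e3 := sl_le (r := (a : ℝ) / b) hp0 hl R.k
    have e4 : (sl R.l R.k : ℝ) * ZL ≤ (SC * ss ((a : ℝ) / b) R.p R.k) * (SC * Z) :=
      mul_le_mul e3 hZ (by positivity) (by have := ss_pos (r := (a : ℝ) / b) hp0 R.k; positivity)
    have e5 : (SC * ss ((a : ℝ) / b) R.p (R.k + 1)) * SC ≤
        (SC * ss ((a : ℝ) / b) R.p R.k) * (SC * Z) := by
      calc (SC * ss ((a : ℝ) / b) R.p (R.k + 1)) * SC ≤ (su R.u (R.k + 1) : ℝ) * SC := by gcongr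
        _ ≤ _ := e1
        _ ≤ _ := e4
    have e6 : ((SC : ℝ) * SC) * ss ((a : ℝ) / b) R.p (R.k + 1) ≤
        ((SC : ℝ) * SC) * (ss ((a : ℝ) / b) R.p R.k * Z) := by linarith
    exact le_of_mul_le_mul_left e6 (by positivity)

section
variable {r Z : ℝ} {y : ℕ}

lemma prodR_fl (Rs : List Row) (hWF : WF y (psOf Rs)) (h : ∀ R ∈ Rs, RowOK r Z R) (z c : ℕ)
    (hz : (z : ℝ) ≤ SC) :
    (prodR Row.fl Rs z c : ℝ) ≤ SC ^ (Rs.length + 1) * fv r (psOf Rs) c := by
  have hS := SC_pos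
  induction Rs generalizing c with
  | nil => simpa [prodR, psOf, fv] using hz
  | cons R Rs ih =>
    have h1 := (h R List.mem_cons_self).fl (c % (R.k + 1)) (by
      have := Nat.mod_lt c (show R.k + 1 > 0 by omega); omega)
    have h2 := ih hWF.2.2.2 (fun R hR => h R (List.mem_cons_of_mem _ hR)) (c / (R.k + 1))
    have hp : 0 < R.p := hWF.1.pos
    have h3 := fv_pos (r := r) (psOf Rs) y hWF.2.2.2 (c / (R.k + 1))
    have h4 := ss_pos (r := r) hp (c % (R.k + 1))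
    simp only [prodR, List.length_cons]
    show _ ≤ (SC : ℝ) ^ (Rs.length + 1 + 1) * (ss r R.p (c % (R.k + 1)) *
      fv r (psOf Rs) (c / (R.k + 1)))
    push_cast
    calc ((R.fl.getD (c % (R.k + 1)) 0 : ℕ) : ℝ) * (prodR Row.fl Rs z (c / (R.k + 1)) : ℝ)
        ≤ (SC * ss r R.p (c % (R.k + 1))) *
          (SC ^ (Rs.length + 1) * fv r (psOf Rs) (c / (R.k + 1))) :=
          mul_le_mul h1 h2 (by positivity) (by positivity)
      _ = _ := by ring

lemma prodR_fh (Rs : List Row) (hWF : WF y (psOf Rs)) (h : ∀ R ∈ Rs, RowOK r Z R) (z c : ℕ)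
    (hz : (SC : ℝ) ≤ z) :
    SC ^ (Rs.length + 1) * fv r (psOf Rs) c ≤ (prodR Row.fh Rs z c : ℝ) := by
  have hS := SC_pos
  induction Rs generalizing c with
  | nil => simpa [prodR, psOf, fv] using hz
  | cons R Rs ih =>
    have h1 := (h R List.mem_cons_self).fh (c % (R.k + 1)) (by
      have := Nat.mod_lt c (show R.k + 1 > 0 by omega); omega)
    have h2 := ih hWF.2.2.2 (fun R hR => h R (List.mem_cons_of_mem _ hR)) (c / (R.k + 1))
    have hp : 0 < R.p := hWF.1.pos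
    have h3 := fv_pos (r := r) (psOf Rs) y hWF.2.2.2 (c / (R.k + 1))
    have h4 := ss_pos (r := r) hp (c % (R.k + 1))
    simp only [prodR, List.length_cons]
    show (SC : ℝ) ^ (Rs.length + 1 + 1) * (ss r R.p (c % (R.k + 1)) *
      fv r (psOf Rs) (c / (R.k + 1))) ≤ _
    push_cast
    calc (SC : ℝ) ^ (Rs.length + 1 + 1) * (ss r R.p (c % (R.k + 1)) *
          fv r (psOf Rs) (c / (R.k + 1)))
        = (SC * ss r R.p (c % (R.k + 1))) *
          (SC ^ (Rs.length + 1) * fv r (psOf Rs) (c / (R.k + 1))) := by ring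
      _ ≤ _ := mul_le_mul h1 h2 (by positivity) (by positivity)

lemma prodR_gl (Rs : List Row) (hr : 0 < r) (hWF : WF y (psOf Rs)) (h : ∀ R ∈ Rs, RowOK r Z R)
    (z c : ℕ) (_hZ : 0 < Z) (hz : (z : ℝ) ≤ SC * Z) :
    (prodR Row.gl Rs z c : ℝ) ≤ SC ^ (Rs.length + 1) * gv r Z (psOf Rs) c := by
  have hS := SC_pos
  induction Rs generalizing c with
  | nil => simpa [prodR, psOf, gv] using hz
  | cons R Rs ih =>
    have h1 := (h R List.mem_cons_self).gl (c % (R.k + 1)) (by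
      have := Nat.mod_lt c (show R.k + 1 > 0 by omega); omega)
    have h2 := ih hWF.2.2.2 (fun R hR => h R (List.mem_cons_of_mem _ hR)) (c / (R.k + 1))
    have hp : 0 < R.p := hWF.1.pos
    have h5 := si_pos hr hWF.1.two_le
    have h4 := ss_pos (r := r) hp (c % (R.k + 1))
    have h6 : 0 < (if c % (R.k + 1) = R.k then si r R.p else ss r R.p (c % (R.k + 1))) := by
      split_ifs
      · exact h5
      · exact h4
    simp only [prodR, List.length_cons]
    show _ ≤ (SC : ℝ) ^ (Rs.length + 1 + 1) *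
      ((if c % (R.k + 1) = R.k then si r R.p else ss r R.p (c % (R.k + 1))) *
      gv r Z (psOf Rs) (c / (R.k + 1)))
    push_cast
    calc ((R.gl.getD (c % (R.k + 1)) 0 : ℕ) : ℝ) * (prodR Row.gl Rs z (c / (R.k + 1)) : ℝ)
        ≤ (SC * (if c % (R.k + 1) = R.k then si r R.p else ss r R.p (c % (R.k + 1)))) *
          (SC ^ (Rs.length + 1) * gv r Z (psOf Rs) (c / (R.k + 1))) :=
          mul_le_mul h1 h2 (by positivity) (by positivity)
      _ = _ := by ring

lemma gv_pos (ps : List (ℕ × ℕ)) (hr : 0 < r) (hWF : WF y ps) (hZ : 0 < Z) (c : ℕ) :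
    0 < gv r Z ps c := by
  have h1 := mul_fv_le_gv hr hZ ps y hWF c
  have h2 := fv_pos (r := r) ps y hWF c
  have : 0 < fv r ps c * Z := by positivity
  linarith

lemma prodR_gh (Rs : List Row) (hr : 0 < r) (hWF : WF y (psOf Rs)) (h : ∀ R ∈ Rs, RowOK r Z R)
    (z c : ℕ) (hZ : 0 < Z) (hz : SC * Z ≤ (z : ℝ)) :
    SC ^ (Rs.length + 1) * gv r Z (psOf Rs) c ≤ (prodR Row.gh Rs z c : ℝ) := by
  have hS := SC_pos
  induction Rs generalizing c with
  | nil => simpa [prodR, psOf, gv] using hz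
  | cons R Rs ih =>
    have h1 := (h R List.mem_cons_self).gh (c % (R.k + 1)) (by
      have := Nat.mod_lt c (show R.k + 1 > 0 by omega); omega)
    have h2 := ih hWF.2.2.2 (fun R hR => h R (List.mem_cons_of_mem _ hR)) (c / (R.k + 1))
    have h3 := gv_pos (psOf Rs) hr hWF.2.2.2 hZ (c / (R.k + 1))
    simp only [prodR, List.length_cons]
    show (SC : ℝ) ^ (Rs.length + 1 + 1) *
      ((if c % (R.k + 1) = R.k then si r R.p else ss r R.p (c % (R.k + 1))) *
      gv r Z (psOf Rs) (c / (R.k + 1))) ≤ _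
    push_cast
    calc (SC : ℝ) ^ (Rs.length + 1 + 1) *
          ((if c % (R.k + 1) = R.k then si r R.p else ss r R.p (c % (R.k + 1))) *
          gv r Z (psOf Rs) (c / (R.k + 1)))
        = (SC * (if c % (R.k + 1) = R.k then si r R.p else ss r R.p (c % (R.k + 1)))) *
          (SC ^ (Rs.length + 1) * gv r Z (psOf Rs) (c / (R.k + 1))) := by ring
      _ ≤ _ := mul_le_mul h1 h2 (by positivity) (by positivity)

end

end Pool.Agent.CrNM
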