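import Mathlib
import Pool.Agent.CrNM.Enc

/-!
For every prime `q > 19` there are primes `p > q` with `∑ p^{-r} ≥ q^{-r}`, for `0 < r ≤ 13/3`.
-/

namespace Pool.Agent.CrNM

open Finset Filter Topology

/-- `q^{-r} ≤ ∑ p^{-r}` for some finite set of primes `p > q`. -/
def Good (r : ℝ) (q : ℕ) : Prop :=
  ∃ S : Finset ℕ, (∀ p ∈ S, p.Prime ∧ q < p) ∧ xx r q ≤ ∑ p ∈ S, xx r p

lemma Good.mono {r s : ℝ} {q : ℕ} (hq : 0 < q) (hrs : r ≤ s) (h : Good s q) : Good r q := by
  obtain ⟨S, hS, h1⟩ := h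
  refine ⟨S, hS, ?_⟩
  have hq' : (0 : ℝ) < q := by exact_mod_cast hq
  -- multiply by q^(s-r)
  have h2 : ∀ p ∈ S, xx s p * (q : ℝ) ^ (s - r) ≤ xx r p := by
    intro p hp
    have hp' : (0 : ℝ) < p := by exact_mod_cast (hS p hp).1.pos
    have h3 : xx r p = xx s p * (p : ℝ) ^ (s - r) := by
      unfold xx
      rw [← Real.rpow_add hp']
      congr 1; ring
    rw [h3]
    apply mul_le_mul_of_nonneg_left _ (xx_pos (hS p hp).1.pos).le
    apply Real.rpow_le_rpow hq'.le _ (by linarith)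
    exact_mod_cast (hS p hp).2.le
  have h4 : xx r q = xx s q * (q : ℝ) ^ (s - r) := by
    unfold xx
    rw [← Real.rpow_add hq']
    congr 1; ring
  rw [h4]
  have h5 : (0 : ℝ) < (q : ℝ) ^ (s - r) := Real.rpow_pos_of_pos hq' _
  calc xx s q * (q : ℝ) ^ (s - r) ≤ (∑ p ∈ S, xx s p) * (q : ℝ) ^ (s - r) := by gcongr
    _ = ∑ p ∈ S, xx s p * (q : ℝ) ^ (s - r) := by rw [sum_mul]
    _ ≤ _ := sum_le_sum h2

lemma xx_le_card {a c k : ℕ} (ha : 0 < a) (hc0 : 0 < c) (hc : c ^ 13 ≤ k ^ 3 * a ^ 13) :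
    xx ((13 : ℕ) / (3 : ℕ) : ℝ) a ≤ k * xx ((13 : ℕ) / (3 : ℕ) : ℝ) c := by
  have h1 := xx_pow_mul 13 3 a (by norm_num) ha
  have h2 := xx_pow_mul 13 3 c (by norm_num) hc0
  have hA := xx_pos (r := ((13 : ℕ) / (3 : ℕ) : ℝ)) ha
  have hC := xx_pos (r := ((13 : ℕ) / (3 : ℕ) : ℝ)) hc0
  set A := xx ((13 : ℕ) / (3 : ℕ) : ℝ) a with hAdef
  set C := xx ((13 : ℕ) / (3 : ℕ) : ℝ) c with hCdef
  by_contra hcon
  push Not at hcon
  have h3 : (k * C) ^ 3 < A ^ 3 := pow_lt_pow_left₀ hcon (by positivity) (by norm_num)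
  have ha' : (0 : ℝ) < (a : ℝ) ^ 13 := by positivity
  have hc' : (0 : ℝ) < (c : ℝ) ^ 13 := by positivity
  have h4 : (c : ℝ) ^ 13 ≤ (k : ℝ) ^ 3 * (a : ℝ) ^ 13 := by exact_mod_cast hc
  have h5 : (k * C) ^ 3 * ((a : ℝ) ^ 13 * (c : ℝ) ^ 13) < A ^ 3 * ((a : ℝ) ^ 13 * (c : ℝ) ^ 13) :=
    mul_lt_mul_of_pos_right h3 (by positivity)
  have h6 : (k * C) ^ 3 * ((a : ℝ) ^ 13 * (c : ℝ) ^ 13) =
      (k : ℝ) ^ 3 * (a : ℝ) ^ 13 * (C ^ 3 * (c : ℝ) ^ 13) := by ring
  have h7 : A ^ 3 * ((a : ℝ) ^ 13 * (c : ℝ) ^ 13) = (A ^ 3 * (a : ℝ) ^ 13) * (c : ℝ) ^ 13 := by ring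
  rw [h6, h7, h1, h2] at h5
  linarith

lemma good_of_finset {a c q : ℕ} (S : Finset ℕ) (hS : ∀ p ∈ S, p.Prime ∧ q < p ∧ p ≤ c)
    (ha : 0 < a) (hc0 : 0 < c) (hc : c ^ 13 ≤ S.card ^ 3 * a ^ 13) (h1 : a ≤ q) :
    Good ((13 : ℕ) / (3 : ℕ) : ℝ) q := by
  refine ⟨S, fun p hp => ⟨(hS p hp).1, (hS p hp).2.1⟩, ?_⟩
  have hr : (0 : ℝ) ≤ ((13 : ℕ) / (3 : ℕ) : ℝ) := by positivity
  calc xx ((13 : ℕ) / (3 : ℕ) : ℝ) q ≤ xx ((13 : ℕ) / (3 : ℕ) : ℝ) a := xx_anti hr ha h1
    _ ≤ S.card * xx ((13 : ℕ) / (3 : ℕ) : ℝ) c := xx_le_card ha hc0 hc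
    _ = ∑ p ∈ S, xx ((13 : ℕ) / (3 : ℕ) : ℝ) c := by rw [sum_const, nsmul_eq_mul]
    _ ≤ _ := sum_le_sum fun p hp => xx_anti hr (hS p hp).1.pos (hS p hp).2.2

lemma good_of_list {a b c q : ℕ} (l : List ℕ) (hl : ∀ p ∈ l, p.Prime)
    (hb : ∀ p ∈ l, b < p ∧ p ≤ c) (hnd : l.Nodup) (ha : 0 < a) (hc0 : 0 < c)
    (hc : c ^ 13 ≤ l.length ^ 3 * a ^ 13)
    (h1 : a ≤ q) (h2 : q ≤ b) : Good ((13 : ℕ) / (3 : ℕ) : ℝ) q := by
  refine good_of_finset (a := a) (c := c) l.toFinset ?_ ha hc0 ?_ h1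
  · intro p hp
    rw [List.mem_toFinset] at hp
    have := hb p hp
    exact ⟨hl p hp, by omega, this.2⟩
  · rw [List.toFinset_card_of_nodup hnd]
    exact hc

private lemma block0 {q : ℕ} (h1 : 113 ≤ q) (h2 : q ≤ 136) :
    Good ((13 : ℕ) / (3 : ℕ) : ℝ) q :=
  good_of_list (a := 113) (b := 136) (c := 151) [137, 139, 149, 151] (by norm_num)
    (by norm_num) (by norm_num) (by norm_num) (by norm_num) (by norm_num) h1 h2

private lemma block1 {q : ℕ} (h1 : 137 ≤ q) (h2 : q ≤ 178) :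
    Good ((13 : ℕ) / (3 : ℕ) : ℝ) q :=
  good_of_list (a := 137) (b := 178) (c := 197) [179, 181, 191, 193, 197] (by norm_num)
    (by norm_num) (by norm_num) (by norm_num) (by norm_num) (by norm_num) h1 h2

private lemma block2 {q : ℕ} (h1 : 179 ≤ q) (h2 : q ≤ 222) :
    Good ((13 : ℕ) / (3 : ℕ) : ℝ) q :=
  good_of_list (a := 179) (b := 222) (c := 229) [223, 227, 229] (by norm_num)
    (by norm_num) (by norm_num) (by norm_num) (by norm_num) (by norm_num) h1 h2

private lemma block3 {q : ℕ} (h1 : 223 ≤ q) (h2 : q ≤ 276) :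
    Good ((13 : ℕ) / (3 : ℕ) : ℝ) q :=
  good_of_list (a := 223) (b := 276) (c := 283) [277, 281, 283] (by norm_num)
    (by norm_num) (by norm_num) (by norm_num) (by norm_num) (by norm_num) h1 h2

private lemma block4 {q : ℕ} (h1 : 277 ≤ q) (h2 : q ≤ 346) :
    Good ((13 : ℕ) / (3 : ℕ) : ℝ) q :=
  good_of_list (a := 277) (b := 346) (c := 353) [347, 349, 353] (by norm_num)
    (by norm_num) (by norm_num) (by norm_num) (by norm_num) (by norm_num) h1 h2

private lemma block5 {q : ℕ} (h1 : 347 ≤ q) (h2 : q ≤ 478) :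
    Good ((13 : ℕ) / (3 : ℕ) : ℝ) q :=
  good_of_list (a := 347) (b := 478) (c := 503) [479, 487, 491, 499, 503] (by norm_num)
    (by norm_num) (by norm_num) (by norm_num) (by norm_num) (by norm_num) h1 h2

private lemma block6 {q : ℕ} (h1 : 479 ≤ q) (h2 : q ≤ 642) :
    Good ((13 : ℕ) / (3 : ℕ) : ℝ) q :=
  good_of_list (a := 479) (b := 642) (c := 659) [643, 647, 653, 659] (by norm_num)
    (by norm_num) (by norm_num) (by norm_num) (by norm_num) (by norm_num) h1 h2

private lemma block7 {q : ℕ} (h1 : 643 ≤ q) (h2 : q ≤ 862) :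
    Good ((13 : ℕ) / (3 : ℕ) : ℝ) q :=
  good_of_list (a := 643) (b := 862) (c := 883) [863, 877, 881, 883] (by norm_num)
    (by norm_num) (by norm_num) (by norm_num) (by norm_num) (by norm_num) h1 h2

private lemma block8 {q : ℕ} (h1 : 863 ≤ q) (h2 : q ≤ 1222) :
    Good ((13 : ℕ) / (3 : ℕ) : ℝ) q :=
  good_of_list (a := 863) (b := 1222) (c := 1249) [1223, 1229, 1231, 1237, 1249] (by norm_num)
    (by norm_num) (by norm_num) (by norm_num) (by norm_num) (by norm_num) h1 h2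

private lemma block9 {q : ℕ} (h1 : 1223 ≤ q) (h2 : q ≤ 1656) :
    Good ((13 : ℕ) / (3 : ℕ) : ℝ) q :=
  good_of_list (a := 1223) (b := 1656) (c := 1669) [1657, 1663, 1667, 1669] (by norm_num)
    (by norm_num) (by norm_num) (by norm_num) (by norm_num) (by norm_num) h1 h2

private lemma block10 {q : ℕ} (h1 : 1657 ≤ q) (h2 : q ≤ 2266) :
    Good ((13 : ℕ) / (3 : ℕ) : ℝ) q :=
  good_of_list (a := 1657) (b := 2266) (c := 2281) [2267, 2269, 2273, 2281] (by norm_num)
    (by norm_num) (by norm_num) (by norm_num) (by norm_num) (by norm_num) h1 h2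

private lemma block11 {q : ℕ} (h1 : 2267 ≤ q) (h2 : q ≤ 3088) :
    Good ((13 : ℕ) / (3 : ℕ) : ℝ) q :=
  good_of_list (a := 2267) (b := 3088) (c := 3121) [3089, 3109, 3119, 3121] (by norm_num)
    (by norm_num) (by norm_num) (by norm_num) (by norm_num) (by norm_num) h1 h2

private lemma block12 {q : ℕ} (h1 : 3089 ≤ q) (h2 : q ≤ 4230) :
    Good ((13 : ℕ) / (3 : ℕ) : ℝ) q :=
  good_of_list (a := 3089) (b := 4230) (c := 4253) [4231, 4241, 4243, 4253] (by norm_num)
    (by norm_num) (by norm_num) (by norm_num) (by norm_num) (by norm_num) h1 h2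

private lemma block13 {q : ℕ} (h1 : 4231 ≤ q) (h2 : q ≤ 5800) :
    Good ((13 : ℕ) / (3 : ℕ) : ℝ) q :=
  good_of_list (a := 4231) (b := 5800) (c := 5821) [5801, 5807, 5813, 5821] (by norm_num)
    (by norm_num) (by norm_num) (by norm_num) (by norm_num) (by norm_num) h1 h2

private lemma block14 {q : ℕ} (h1 : 5801 ≤ q) (h2 : q ≤ 8362) :
    Good ((13 : ℕ) / (3 : ℕ) : ℝ) q :=
  good_of_list (a := 5801) (b := 8362) (c := 8389) [8363, 8369, 8377, 8387, 8389] (by norm_num)
    (by norm_num) (by norm_num) (by norm_num) (by norm_num) (by norm_num) h1 h2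

private lemma block15 {q : ℕ} (h1 : 8363 ≤ q) (h2 : q ≤ 11488) :
    Good ((13 : ℕ) / (3 : ℕ) : ℝ) q :=
  good_of_list (a := 8363) (b := 11488) (c := 11503) [11489, 11491, 11497, 11503] (by norm_num)
    (by norm_num) (by norm_num) (by norm_num) (by norm_num) (by norm_num) h1 h2

lemma good_mid {q : ℕ} (h1 : 113 ≤ q) (h2 : q ≤ 11488) : Good ((13 : ℕ) / (3 : ℕ) : ℝ) q := by
  rcases Nat.lt_or_ge 136 q with h0 | h0
  swap
  · exact block0 (by omega) h0
  rcases Nat.lt_or_ge 178 q with h1 | h1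
  swap
  · exact block1 (by omega) h1
  rcases Nat.lt_or_ge 222 q with h2 | h2
  swap
  · exact block2 (by omega) h2
  rcases Nat.lt_or_ge 276 q with h3 | h3
  swap
  · exact block3 (by omega) h3
  rcases Nat.lt_or_ge 346 q with h4 | h4
  swap
  · exact block4 (by omega) h4
  rcases Nat.lt_or_ge 478 q with h5 | h5
  swap
  · exact block5 (by omega) h5
  rcases Nat.lt_or_ge 642 q with h6 | h6
  swap
  · exact block6 (by omega) h6
  rcases Nat.lt_or_ge 862 q with h7 | h7
  swap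
  · exact block7 (by omega) h7
  rcases Nat.lt_or_ge 1222 q with h8 | h8
  swap
  · exact block8 (by omega) h8
  rcases Nat.lt_or_ge 1656 q with h9 | h9
  swap
  · exact block9 (by omega) h9
  rcases Nat.lt_or_ge 2266 q with h10 | h10
  swap
  · exact block10 (by omega) h10
  rcases Nat.lt_or_ge 3088 q with h11 | h11
  swap
  · exact block11 (by omega) h11
  rcases Nat.lt_or_ge 4230 q with h12 | h12
  swap
  · exact block12 (by omega) h12
  rcases Nat.lt_or_ge 5800 q with h13 | h13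
  swap
  · exact block13 (by omega) h13
  rcases Nat.lt_or_ge 8362 q with h14 | h14
  swap
  · exact block14 (by omega) h14
  rcases Nat.lt_or_ge 11488 q with h15 | h15
  swap
  · exact block15 (by omega) h15
  omega

open Chebyshev in
lemma cheb {x : ℕ} (hx : 10000 ≤ x) :
    407 ≤ ((Finset.Ioc x (4 * x)).filter Nat.Prime).card := by
  set S := (Finset.Ioc x (4 * x)).filter Nat.Prime with hS
  have hx' : (10000 : ℝ) ≤ x := by exact_mod_cast hx
  have hx0 : (0 : ℝ) < x := by linarith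
  have h1 := theta_ge (4 * x)
  have h2 := theta_le_log4_mul_x (x := (x : ℝ)) hx0.le
  have h3 : θ ((4 * x : ℕ) : ℝ) - θ (x : ℝ) ≤ S.card * Real.log (4 * x) := by
    unfold Chebyshev.theta
    rw [Nat.floor_natCast, Nat.floor_natCast]
    have e1 : (Finset.Ioc 0 (4 * x)).filter Nat.Prime =
        (Finset.Ioc 0 x).filter Nat.Prime ∪ S := by
      ext p
      simp only [hS, Finset.mem_filter, Finset.mem_Ioc, Finset.mem_union]
      constructor
      · rintro ⟨⟨h3, h4⟩, h5⟩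
        by_cases h6 : p ≤ x
        · exact Or.inl ⟨⟨h3, h6⟩, h5⟩
        · exact Or.inr ⟨⟨by omega, h4⟩, h5⟩
      · rintro (⟨⟨h3, h4⟩, h5⟩ | ⟨⟨h3, h4⟩, h5⟩)
        · exact ⟨⟨h3, by omega⟩, h5⟩
        · exact ⟨⟨by omega, h4⟩, h5⟩
    have e2 : Disjoint ((Finset.Ioc 0 x).filter Nat.Prime) S := by
      rw [Finset.disjoint_left]
      intro p hp hp'
      simp only [hS, Finset.mem_filter, Finset.mem_Ioc] at hp hp'
      omega
    rw [e1, Finset.sum_union e2, add_sub_cancel_left]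
    calc ∑ p ∈ S, Real.log p ≤ ∑ p ∈ S, Real.log (4 * x) := by
          apply Finset.sum_le_sum
          intro p hp
          simp only [hS, Finset.mem_filter, Finset.mem_Ioc] at hp
          apply Real.log_le_log
          · exact_mod_cast hp.2.pos
          · exact_mod_cast hp.1.2
      _ = _ := by rw [Finset.sum_const, nsmul_eq_mul]
  by_contra hcon
  have h4 : (S.card : ℝ) ≤ 406 := by
    have : S.card ≤ 406 := by omega
    exact_mod_cast this
  push_cast at h1 h3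
  -- u = sqrt x
  obtain ⟨u, hu, hux⟩ : ∃ u : ℝ, 100 ≤ u ∧ u ^ 2 = x :=
    ⟨√x, by rw [Real.le_sqrt' (by norm_num)]; linarith, Real.sq_sqrt hx0.le⟩
  have hu0 : 0 < u := by linarith
  have hs : √(4 * (x : ℝ)) = 2 * u := by
    rw [← hux, show 4 * u ^ 2 = (2 * u) ^ 2 by ring, Real.sqrt_sq (by linarith)]
  have hl : Real.log (4 * x) = 2 * Real.log (2 * u) := by
    rw [← hux, show 4 * u ^ 2 = (2 * u) ^ 2 by ring, Real.log_pow]
    norm_num
  have hl2 : 0 ≤ Real.log (4 * x) := Real.log_nonneg (by linarith)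
  have hl3 : Real.log (4 * x + 1) ≤ Real.log (4 * x) + 1 := by
    have h5 : (4 * (x : ℝ) + 1) = (4 * x) * (1 + 1 / (4 * x)) := by field_simp
    rw [h5, Real.log_mul (by positivity) (by positivity)]
    have h6 : Real.log (1 + 1 / (4 * x)) ≤ (1 + 1 / (4 * (x : ℝ))) - 1 :=
      Real.log_le_sub_one_of_pos (by positivity)
    have h7 : 1 / (4 * (x : ℝ)) ≤ 1 := by
      rw [div_le_one (by positivity)]; linarith
    linarith
  have hlog2 := Real.log_two_gt_d9
  have hlog2' := Real.log_two_lt_d9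
  have hlog4 : Real.log 4 = 2 * Real.log 2 := by
    rw [show (4 : ℝ) = 2 ^ 2 by norm_num, Real.log_pow]; norm_num
  -- log (2u) ≤ 8 log 2 + 2u/256 - 1
  have hl4 : Real.log (2 * u) ≤ 8 * Real.log 2 + (u / 128 - 1) := by
    have h5 : 2 * u = 256 * (u / 128) := by ring
    have h6 : Real.log (256 : ℝ) = 8 * Real.log 2 := by
      rw [show (256 : ℝ) = 2 ^ 8 by norm_num, Real.log_pow]; norm_num
    rw [h5, Real.log_mul (by norm_num) (by positivity), h6]
    have := Real.log_le_sub_one_of_pos (x := u / 128) (by positivity)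
    linarith
  have hL : Real.log (4 * x) ≤ 9.1 + u / 64 := by rw [hl]; linarith
  rw [hs] at h1
  rw [hlog4] at h2
  -- combine
  have h5 : (S.card : ℝ) * Real.log (4 * x) ≤ 406 * Real.log (4 * x) := by gcongr
  have h6 : 2 * (u ^ 2) * Real.log 2 ≤ (407 + 4 * u) * Real.log (4 * x) + 1 := by
    rw [hux]
    nlinarith
  have h7 : (407 + 4 * u) * Real.log (4 * x) ≤ (407 + 4 * u) * (9.1 + u / 64) := by
    apply mul_le_mul_of_nonneg_left hL (by linarith)
  nlinarith

lemma good_large {q : ℕ} (hq : 10000 ≤ q) : Good ((13 : ℕ) / (3 : ℕ) : ℝ) q := by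
  refine good_of_finset (a := q) (c := 4 * q) ((Finset.Ioc q (4 * q)).filter Nat.Prime) ?_
    (by omega) (by omega) ?_ le_rfl
  · intro p hp
    simp only [Finset.mem_filter, Finset.mem_Ioc] at hp
    exact ⟨hp.2, hp.1.1, hp.1.2⟩
  · have h1 := cheb hq
    calc (4 * q) ^ 13 = 4 ^ 13 * q ^ 13 := by ring
      _ ≤ 407 ^ 3 * q ^ 13 := by
        apply Nat.mul_le_mul_right
        norm_num
      _ ≤ _ := by
        apply Nat.mul_le_mul_right
        exact Nat.pow_le_pow_left h1 3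

/-- primes `23 ≤ p < 200` with enclosures of `10^12 p^(-13/3)` -/
def tabA : List (ℕ × ℕ × ℕ) :=
  [(23, 1256548, 1256549),
  (29, 460195, 460196),
  (31, 344693, 344694),
  (37, 160125, 160126),
  (41, 102628, 102629),
  (43, 83490, 83491),
  (47, 56786, 56787),
  (53, 33739, 33740),
  (59, 21198, 21199),
  (61, 18347, 18348),
  (67, 12218, 12219),
  (71, 9503, 9504),
  (73, 8425, 8426),
  (79, 5983, 5984),
  (83, 4830, 4831),
  (89, 3569, 3570),
  (97, 2458, 2459),
  (101, 2063, 2064),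
  (103, 1895, 1896),
  (107, 1606, 1607),
  (109, 1483, 1484),
  (113, 1268, 1269),
  (127, 764, 765),
  (131, 668, 669),
  (137, 550, 551),
  (139, 517, 518),
  (149, 382, 383),
  (151, 361, 362),
  (157, 305, 306),
  (163, 259, 260),
  (167, 233, 234),
  (173, 200, 201),
  (179, 172, 173),
  (181, 164, 165),
  (191, 130, 131),
  (193, 124, 125),
  (197, 114, 115),
  (199, 109, 110)]

/-- primes `23 ≤ p < 200` with enclosures of `10^12 p^(-69/16)` -/
def tabB : List (ℕ × ℕ × ℕ) :=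
  [(23, 1341370, 1341371),
  (29, 493638, 493639),
  (31, 370256, 370257),
  (37, 172635, 172636),
  (41, 110884, 110885),
  (43, 90295, 90296),
  (47, 61528, 61529),
  (53, 36648, 36649),
  (59, 23078, 23079),
  (61, 19987, 19988),
  (67, 13336, 13337),
  (71, 10386, 10387),
  (73, 9213, 9214),
  (79, 6553, 6554),
  (83, 5296, 5297),
  (89, 3919, 3920),
  (97, 2704, 2705),
  (101, 2271, 2272),
  (103, 2087, 2088),
  (107, 1771, 1772),
  (109, 1635, 1636),
  (113, 1399, 1400),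
  (127, 845, 846),
  (131, 740, 741),
  (137, 610, 611),
  (139, 573, 574),
  (149, 424, 425),
  (151, 401, 402),
  (157, 338, 339),
  (163, 288, 289),
  (167, 259, 260),
  (173, 223, 224),
  (179, 192, 193),
  (181, 183, 184),
  (191, 145, 146),
  (193, 139, 140),
  (197, 127, 128),
  (199, 121, 122)]

/-- check of an enclosure table -/
def okTab (a b : ℕ) (T : List (ℕ × ℕ × ℕ)) : Bool :=
  T.all fun t => decide (t.2.1 ^ b * t.1 ^ a ≤ SC ^ b) && decide (SC ^ b ≤ t.2.2 ^ b * t.1 ^ a)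

lemma tabA_ok : okTab 13 3 tabA = true := by decide +kernel

lemma tabB_ok : okTab 69 16 tabB = true := by decide +kernel

lemma tabAB : tabB.map Prod.fst = tabA.map Prod.fst := by decide +kernel

lemma tabA_prime : ∀ p ∈ tabA.map Prod.fst, p.Prime := by
  simp only [tabA, List.map_cons, List.map_nil, List.forall_mem_cons, List.not_mem_nil]
  norm_num

lemma tabA_nodup : (tabA.map Prod.fst).Nodup := by decide +kernel

lemma tabA_complete : ∀ p < 200, 19 < p → p.Prime → p ∈ tabA.map Prod.fst := by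
  intro p h1 h2 h3
  interval_cases p <;> first | (exfalso; revert h3; norm_num; done) | decide +kernel

/-- suffix sums -/
def okSuf : List (ℕ × ℕ × ℕ) → Bool
  | [] => true
  | t :: T => (decide (113 ≤ t.1) || (T.all (fun s => decide (t.1 < s.1)) &&
      decide (t.2.2 ≤ (T.map (fun s => s.2.1)).sum))) && okSuf T

lemma tabA_suf : okSuf tabA = true := by decide +kernel

lemma sum_lo {a b : ℕ} (hb : 0 < b) (T : List (ℕ × ℕ × ℕ)) (h7 : ∀ s ∈ T, 0 < s.1)
    (h8 : okTab a b T = true) : (((T.map (fun s => s.2.1)).sum : ℕ) : ℝ) ≤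
      SC * ((T.map Prod.fst).map (xx ((a : ℕ) / (b : ℕ) : ℝ))).sum := by
  induction T with
  | nil => simp
  | cons s T ih =>
    simp only [okTab, List.all_cons, Bool.and_eq_true, decide_eq_true_eq] at h8
    simp only [List.map_cons, List.sum_cons]
    have e3 := enc_lo (a := a) (b := b) (p := s.1) (l := s.2.1) (M := SC) hb
      (h7 s List.mem_cons_self) h8.1.1
    have e4 := ih (fun s hs => h7 s (List.mem_cons_of_mem _ hs)) h8.2
    push_cast at e4 ⊢
    rw [mul_add]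
    linarith

lemma sum_hi {a b : ℕ} (hb : 0 < b) (T : List (ℕ × ℕ × ℕ)) (h7 : ∀ s ∈ T, 0 < s.1)
    (h8 : okTab a b T = true) :
      SC * ((T.map Prod.fst).map (xx ((a : ℕ) / (b : ℕ) : ℝ))).sum ≤
      (((T.map (fun s => s.2.2)).sum : ℕ) : ℝ) := by
  induction T with
  | nil => simp
  | cons s T ih =>
    simp only [okTab, List.all_cons, Bool.and_eq_true, decide_eq_true_eq] at h8
    simp only [List.map_cons, List.sum_cons]
    have e3 := enc_hi (a := a) (b := b) (p := s.1) (u := s.2.2) (M := SC) hb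
      (h7 s List.mem_cons_self) h8.1.2
    have e4 := ih (fun s hs => h7 s (List.mem_cons_of_mem _ hs)) h8.2
    push_cast at e4 ⊢
    rw [mul_add]
    linarith

lemma good_suf (T : List (ℕ × ℕ × ℕ)) (h1 : okTab 13 3 T = true) (h2 : okSuf T = true)
    (h3 : ∀ p ∈ T.map Prod.fst, p.Prime) (h4 : (T.map Prod.fst).Nodup) :
    ∀ q ∈ T.map Prod.fst, q < 113 → Good ((13 : ℕ) / (3 : ℕ) : ℝ) q := by
  have hS := SC_pos
  induction T with
  | nil => intro q hq; simp at hq
  | cons t T ih =>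
    intro q hq hq2
    simp only [okTab, List.all_cons, Bool.and_eq_true, decide_eq_true_eq] at h1
    simp only [okSuf, Bool.and_eq_true, Bool.or_eq_true, decide_eq_true_eq, List.all_eq_true] at h2
    simp only [List.map_cons, List.nodup_cons] at h4
    rcases List.mem_cons.1 hq with rfl | hq'
    · rcases h2.1 with h5 | ⟨h5, h6⟩
      · omega
      · have ht0 : 0 < t.1 := (h3 t.1 (by simp)).pos
        refine ⟨(T.map Prod.fst).toFinset, ?_, ?_⟩
        · intro p hp
          rw [List.mem_toFinset] at hp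
          refine ⟨h3 p (List.mem_cons_of_mem _ hp), ?_⟩
          obtain ⟨s, hs, rfl⟩ := List.mem_map.1 hp
          exact h5 s hs
        · have e1 := enc_hi (a := 13) (b := 3) (p := t.1) (u := t.2.2) (M := SC) (by norm_num) ht0 h1.1.2
          have e2 := sum_lo (a := 13) (b := 3) (by norm_num) T (fun s hs =>
              (h3 s.1 (List.mem_cons_of_mem _ (List.mem_map_of_mem hs))).pos) h1.2
          rw [List.sum_toFinset _ h4.2]
          have e3 : (t.2.2 : ℝ) ≤ ((T.map (fun s => s.2.1)).sum : ℕ) := by exact_mod_cast h6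
          have e4 : SC * xx ((13 : ℕ) / (3 : ℕ) : ℝ) t.1 ≤
              SC * ((T.map Prod.fst).map (xx ((13 : ℕ) / (3 : ℕ) : ℝ))).sum := by
            linarith
          exact le_of_mul_le_mul_left e4 hS
    · exact ih h1.2 h2.2 (fun p hp => h3 p (List.mem_cons_of_mem _ hp)) h4.2 q hq' hq2

/-- every prime `q > 19` is good -/
lemma good_all {r : ℝ} (hr : r ≤ (13 : ℝ) / 3) {q : ℕ} (hq : q.Prime) (h19 : 19 < q) :
    Good r q := by
  have h : Good ((13 : ℕ) / (3 : ℕ) : ℝ) q := by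
    rcases Nat.lt_or_ge q 113 with h1 | h1
    · exact good_suf tabA tabA_ok tabA_suf tabA_prime tabA_nodup q
        (tabA_complete q (by omega) h19 hq) h1
    · rcases Nat.lt_or_ge q 10000 with h2 | h2
      · exact good_mid h1 (by omega)
      · exact good_large h2
  exact h.mono hq.pos (by push_cast; exact hr)

/-- the hypothesis needed for the rough part -/
lemma H_all {r : ℝ} (hr1 : 1 < r) (hr : r ≤ (13 : ℝ) / 3) :
    ∀ q : ℕ, q.Prime → 19 < q → 1 + xx r q ≤ TT r q := by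
  intro q hq h19
  obtain ⟨S, hS, h⟩ := good_all hr hq h19
  have := TT_ge hr1 hS
  linarith

end Pool.Agent.CrNM
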