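import Mathlib
import Pool.Agent.CrNM.Tail

/-!
Bounds for the contribution of the primes `> 19`.
-/

namespace Pool.Agent.CrNM

open Finset Filter Topology

lemma tele (m : ℕ) : ∑ d ∈ Ico 200 (200 + m), (1 : ℝ) / (d : ℝ) ^ 4 ≤
    (1 / 3) * (1 / 199 ^ 3 - 1 / ((199 : ℝ) + m) ^ 3) := by
  induction m with
  | zero => simp
  | succ m ih =>
    rw [← add_assoc, sum_Ico_succ_top (by omega)]
    push_cast
    have hm : (0 : ℝ) ≤ m := by positivity
    set t : ℝ := 199 + m with ht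
    have ht0 : 0 < t := by positivity
    have e1 : (200 : ℝ) + m = t + 1 := by rw [ht]; ring
    have e2 : (199 : ℝ) + (m + 1) = t + 1 := by rw [ht]; ring
    rw [e1, e2]
    have key : 1 / (t + 1) ^ 4 ≤ (1 / 3) * (1 / t ^ 3 - 1 / (t + 1) ^ 3) := by
      rw [div_sub_div _ _ (by positivity) (by positivity), ← mul_div_assoc, div_le_div_iff₀
        (by positivity) (by positivity)]
      have : 0 ≤ t := ht0.le
      ring_nf
      nlinarith [pow_pos ht0 2, pow_pos ht0 3, pow_pos ht0 4, pow_pos ht0 5, pow_pos ht0 6]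
    linarith

lemma xx_le_pow4 {r : ℝ} (hr : (69 : ℝ) / 16 ≤ r) {d : ℕ} (hd : 200 ≤ d) :
    xx r d ≤ (1 / 5) * (1 / (d : ℝ) ^ 4) := by
  have hd' : (200 : ℝ) ≤ d := by exact_mod_cast hd
  have hd0 : (0 : ℝ) < d := by linarith
  have h1 : xx r d ≤ (d : ℝ) ^ (-((69 : ℝ) / 16)) := by
    unfold xx
    apply Real.rpow_le_rpow_of_exponent_le (by linarith) (by linarith)
  have h2 : (d : ℝ) ^ (-((69 : ℝ) / 16)) = (d : ℝ) ^ (-((5 : ℝ) / 16)) * (1 / (d : ℝ) ^ 4) := by
    rw [one_div, ← Real.rpow_natCast (d : ℝ) 4, ← Real.rpow_neg hd0.le, ← Real.rpow_add hd0]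
    congr 1
    norm_num
  have h3 : (d : ℝ) ^ (-((5 : ℝ) / 16)) ≤ 1 / 5 := by
    set w := (d : ℝ) ^ (-((5 : ℝ) / 16)) with hw
    have hw0 : 0 < w := Real.rpow_pos_of_pos hd0 _
    have h4 : w ^ 16 * (d : ℝ) ^ 5 = 1 := by
      rw [hw, ← Real.rpow_natCast ((d : ℝ) ^ (-((5 : ℝ) / 16))) 16, ← Real.rpow_mul hd0.le,
        ← Real.rpow_natCast (d : ℝ) 5, ← Real.rpow_add hd0]
      norm_num
    by_contra hcon
    push Not at hcon
    have h5 : (1 / 5 : ℝ) ^ 16 < w ^ 16 := pow_lt_pow_left₀ hcon (by norm_num) (by norm_num)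
    have h6 : (200 : ℝ) ^ 5 ≤ (d : ℝ) ^ 5 := pow_le_pow_left₀ (by norm_num) hd' 5
    have h7 : (1 / 5 : ℝ) ^ 16 * 200 ^ 5 ≤ w ^ 16 * (d : ℝ) ^ 5 :=
      mul_le_mul h5.le h6 (by positivity) (by positivity)
    rw [h4] at h7
    norm_num at h7
  calc xx r d ≤ _ := h1
    _ = _ := h2
    _ ≤ _ := by
      apply mul_le_mul_of_nonneg_right h3
      positivity

lemma prime_of_rough {n d : ℕ} (hn : n ∈ Num {q | 19 < q}) (hd : d ∣ n) (h1 : 1 < d)
    (h200 : d < 200) : d.Prime ∧ 19 < d := by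
  have hmf : d.minFac.Prime := Nat.minFac_prime (by omega)
  have h2 : 19 < d.minFac := hn.2 _ hmf ((Nat.minFac_dvd d).trans hd)
  have hp : d.Prime := by
    by_contra hnp
    have := Nat.minFac_sq_le_self (by omega) hnp
    nlinarith
  refine ⟨hp, ?_⟩
  exact hn.2 _ hp hd

lemma sig_rough_le {r : ℝ} (hr : (69 : ℝ) / 16 ≤ r) {n : ℕ} (hn : n ∈ Num {q | 19 < q}) :
    sig r n ≤ 1 + ((tabA.map Prod.fst).map (xx r)).sum + 1 / (15 * 199 ^ 3) := by
  rw [sig_eq, ← sum_filter_add_sum_filter_not n.divisors (fun d => d < 200)]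
  have hA : ∑ d ∈ n.divisors.filter (fun d => d < 200), xx r d ≤
      1 + ((tabA.map Prod.fst).map (xx r)).sum := by
    have h1 : (1 : ℕ) ∉ (tabA.map Prod.fst).toFinset := by
      rw [List.mem_toFinset]
      intro h
      exact Nat.not_prime_one (tabA_prime 1 h)
    have h2 : 1 + ((tabA.map Prod.fst).map (xx r)).sum =
        ∑ d ∈ insert 1 (tabA.map Prod.fst).toFinset, xx r d := by
      rw [sum_insert h1, xx_one, List.sum_toFinset _ tabA_nodup]
    rw [h2]
    apply sum_le_sum_of_subset_of_nonneg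
    · intro d hd
      rw [mem_filter, Nat.mem_divisors] at hd
      rw [mem_insert, List.mem_toFinset]
      rcases Nat.lt_or_ge 1 d with h | h
      · right
        have := prime_of_rough hn hd.1.1 h hd.2
        exact tabA_complete d hd.2 this.2 this.1
      · left
        have : d ≠ 0 := by
          rintro rfl
          have := Nat.eq_zero_of_zero_dvd hd.1.1
          have := hn.1
          omega
        omega
    · intro d _ _
      unfold xx
      positivity
  have hB : ∑ d ∈ n.divisors.filter (fun d => ¬ d < 200), xx r d ≤ 1 / (15 * 199 ^ 3) := by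
    calc ∑ d ∈ n.divisors.filter (fun d => ¬ d < 200), xx r d
        ≤ ∑ d ∈ n.divisors.filter (fun d => ¬ d < 200), (1 / 5) * (1 / (d : ℝ) ^ 4) := by
          apply sum_le_sum
          intro d hd
          rw [mem_filter] at hd
          exact xx_le_pow4 hr (by omega)
      _ ≤ ∑ d ∈ Ico 200 (200 + n), (1 / 5) * (1 / (d : ℝ) ^ 4) := by
          apply sum_le_sum_of_subset_of_nonneg
          · intro d hd
            rw [mem_filter, Nat.mem_divisors] at hd
            have := Nat.le_of_dvd (by have := hn.1; omega) hd.1.1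
            rw [mem_Ico]
            omega
          · intro d _ _
            positivity
      _ = (1 / 5) * ∑ d ∈ Ico 200 (200 + n), (1 / (d : ℝ) ^ 4) := by rw [mul_sum]
      _ ≤ (1 / 5) * ((1 / 3) * (1 / 199 ^ 3 - 1 / ((199 : ℝ) + n) ^ 3)) := by
          have := tele n
          linarith
      _ ≤ _ := by
          have e0 : 0 ≤ 1 / ((199 : ℝ) + n) ^ 3 := by positivity
          have e1 : (1 : ℝ) / (15 * 199 ^ 3) = (1 / 5) * ((1 / 3) * (1 / 199 ^ 3)) := by norm_num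
          rw [e1]
          linarith
  linarith

lemma TT_le {r : ℝ} (hr : (69 : ℝ) / 16 ≤ r) (hr2 : r ≤ (13 : ℝ) / 3) :
    TT r 19 ≤ 1 + ((tabA.map Prod.fst).map (xx r)).sum + 1 / (15 * 199 ^ 3) := by
  have hr1 : 1 < r := by linarith
  have h1 := rough_closure hr1 (y0 := 19) (H_all hr1 hr2) (one_le_TT hr1 19) le_rfl
  have h2 : DD r {q | 19 < q} ⊆
      Set.Iic (1 + ((tabA.map Prod.fst).map (xx r)).sum + 1 / (15 * 199 ^ 3)) := by
    apply closure_minimal _ isClosed_Iic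
    rintro _ ⟨n, hn, rfl⟩
    exact sig_rough_le hr hn
  exact h2 h1

lemma le_TT {r : ℝ} (hr1 : 1 < r) :
    1 + ((tabA.map Prod.fst).map (xx r)).sum ≤ TT r 19 := by
  have h := TT_ge hr1 (y := 19) (S := (tabA.map Prod.fst).toFinset) (by
    intro p hp
    rw [List.mem_toFinset] at hp
    refine ⟨tabA_prime p hp, ?_⟩
    have : ∀ p ∈ tabA.map Prod.fst, 19 < p := by decide +kernel
    exact this p hp)
  rwa [List.sum_toFinset _ tabA_nodup] at h

/-- lower bound `ZL` -/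
def zlo (T : List (ℕ × ℕ × ℕ)) : ℕ := SC + (T.map (fun s => s.2.1)).sum

/-- upper bound `ZH` -/
def zhi (T : List (ℕ × ℕ × ℕ)) : ℕ := SC + (T.map (fun s => s.2.2)).sum + 8460

lemma zlo_le {a b : ℕ} (hb : 0 < b) (h1 : 1 < (a : ℝ) / b) (T : List (ℕ × ℕ × ℕ))
    (hT : T.map Prod.fst = tabA.map Prod.fst) (hok : okTab a b T = true) :
    (zlo T : ℝ) ≤ SC * TT ((a : ℝ) / b) 19 := by
  have hS := SC_pos
  have hpos : ∀ s ∈ T, 0 < s.1 := by
    intro s hs
    exact (tabA_prime s.1 (by rw [← hT]; exact List.mem_map_of_mem hs)).pos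
  have h2 := sum_lo hb T hpos hok
  rw [hT] at h2
  have h3 := le_TT h1
  unfold zlo
  push_cast at h2 ⊢
  nlinarith

lemma le_zhi {a b : ℕ} (hb : 0 < b) (h1 : (69 : ℝ) / 16 ≤ (a : ℝ) / b)
    (h2 : (a : ℝ) / b ≤ (13 : ℝ) / 3) (T : List (ℕ × ℕ × ℕ))
    (hT : T.map Prod.fst = tabA.map Prod.fst) (hok : okTab a b T = true) :
    SC * TT ((a : ℝ) / b) 19 ≤ (zhi T : ℝ) := by
  have hS := SC_pos
  have hpos : ∀ s ∈ T, 0 < s.1 := by
    intro s hs
    exact (tabA_prime s.1 (by rw [← hT]; exact List.mem_map_of_mem hs)).pos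
  have h3 := sum_hi hb T hpos hok
  rw [hT] at h3
  have h4 := TT_le h1 h2
  unfold zhi
  push_cast at h3 ⊢
  have h5 : (SC : ℝ) * (1 / (15 * 199 ^ 3)) ≤ 8460 := by norm_num [SC]
  nlinarith

end Pool.Agent.CrNM
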